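import Pool.Agent.Helper17.HCC.Step2
import Mathlib.Order.Filter.Ultrafilter.Defs

/-! # The finite step and the limit -/

open Set Filter

namespace Pool.H17.HCC

open Pool.H66.HC

universe u

variable {V : Type u} {G : SimpleGraph V} {X N : ℕ → Set V} {o : V}

/-- the output of the finite step -/
structure FinOut (G : SimpleGraph V) (X N : ℕ → Set V) (n : ℕ) (E I : Finset (Sym2 V)) :
    Prop where
  univs : ∀ j ≤ n, ∀ S ⊆ W X N j, S.Nonempty → S ≠ W X N j →
    (∀ u ∈ S, ∀ v ∈ W X N j \ S, G.Adj u v → s(u, v) ∈ E) →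
    ∃ u ∈ S, ∃ v ∈ W X N j \ S, G.Adj u v ∧ s(u, v) ∈ I
  rest : ∀ S : Set V, S.Nonempty → Sᶜ.Nonempty →
    (∀ u ∈ S, ∀ v, v ∉ S → G.Adj u v → s(u, v) ∈ E) →
    ∃ u ∈ S, ∃ v, v ∉ S ∧ G.Adj u v ∧ s(u, v) ∉ I

theorem fin_step (hS : Sys G X N o) (h4 : Four G) (n : ℕ) (E : Finset (Sym2 V))
    (hE : ∀ u v, s(u, v) ∈ E → G.Adj u v) : ∃ I, FinOut G X N n E I := by
  classical
  obtain ⟨I, hIE, hI1, hI2⟩ := disjoint_bases E (lrk (evec (psiA G X N n E)))
    (lrk (evec (psiB G E))) (isRank_lrk _) (isRank_lrk _)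
    (fun A hA => by
      have := rank_ineq hS h4 n E hE A hA
      convert this)
  refine ⟨I, ?_, ?_⟩
  · intro j hj S hSj hne hneq hSE
    by_contra hcon
    push Not at hcon
    -- the deepest universe split by `S`
    obtain ⟨l, hln, hlj, hl1, hl2, hmax⟩ : ∃ l ≤ n, W X N l ⊆ W X N j ∧ (S ∩ W X N l).Nonempty ∧
        ¬ W X N l ⊆ S ∧ ∀ m, l < m → m ≤ n → W X N m ⊆ W X N j → (S ∩ W X N m).Nonempty →
        W X N m ⊆ S := by
      have h0 : W X N j ⊆ W X N j ∧ (S ∩ W X N j).Nonempty ∧ ¬ W X N j ⊆ S := by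
        refine ⟨subset_rfl, ?_, fun h => hneq (hSj.antisymm h)⟩
        rw [inter_eq_left.2 hSj]
        exact hne
      have hspec := Nat.findGreatest_spec (P := fun l => W X N l ⊆ W X N j ∧
        (S ∩ W X N l).Nonempty ∧ ¬ W X N l ⊆ S) hj h0
      refine ⟨_, Nat.findGreatest_le n, hspec.1, hspec.2.1, hspec.2.2, ?_⟩
      intro m h1 h2 h3 h5
      by_contra h6
      exact Nat.findGreatest_is_greatest h1 h2 ⟨h3, h5, h6⟩
    obtain ⟨u, hu, v, hv, huv⟩ := W_cc hS l (S ∩ W X N l) inter_subset_right hl1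
      (fun h => hl2 (by rw [← h]; exact inter_subset_left))
    have hvS : v ∉ S := fun h => hv.2 ⟨h, hv.1⟩
    have huvE : s(u, v) ∈ E := hSE u hu.1 v ⟨hlj hv.1, hvS⟩ huv
    have hlev : ∀ a b, a ∈ W X N l → b ∈ W X N l → (a ∈ S ∧ b ∉ S) → lev X N n a b = l := by
      intro a b ha hb hab
      have h1 := le_lev hln ha hb
      rcases h1.eq_or_lt with h | h
      · exact h.symm
      · exfalso
        have hm := lev_mem (X := X) (N := N) n a b
        have h2 := hS.lam' h.le ha hm.1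
        exact hab.2 (hmax _ h (lev_le n a b) (h2.trans hlj) ⟨a, hab.1, hm.1⟩ hm.2)
    -- the functional
    let g : ℕ × V → ℚ := fun p => if p.1 = l ∧ p.2 ∈ S ∩ W X N l then 1 else 0
    obtain ⟨f, hf⟩ := exists_fun (T := T1 G X N n E) g (by
      rintro ⟨⟨j1, a⟩, ⟨j2, b⟩⟩ ⟨h1, h2⟩
      simp only at h1 h2
      subst h1
      simp only [g]
      by_cases hjl : j1 = l
      · subst hjl
        simp only [true_and]
        rcases h2 with ⟨m, h2, h3, h5, h6, h7⟩ | ⟨h2, h3, h5⟩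
        · by_cases haS : a ∈ S
          · have h8 := hmax m h2 h3 (h5.trans hlj) ⟨a, haS, h6⟩
            rw [if_pos ⟨haS, h5 h6⟩, if_pos ⟨h8 h7, h5 h7⟩]
          · have hbS : b ∉ S := fun hbS => haS (hmax m h2 h3 (h5.trans hlj) ⟨b, hbS, h7⟩ h6)
            rw [if_neg (fun h => haS h.1), if_neg (fun h => hbS h.1)]
        · have hm := lev_mem (X := X) (N := N) n a b
          rw [h5] at hm
          by_cases haS : a ∈ S
          · by_cases hbS : b ∈ S
            · rw [if_pos ⟨haS, hm.1⟩, if_pos ⟨hbS, hm.2⟩]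
            · exact absurd (hSE a haS b ⟨hlj hm.2, hbS⟩ h2) h3
          · by_cases hbS : b ∈ S
            · refine absurd (hSE b hbS a ⟨hlj hm.1, haS⟩ h2.symm) ?_
              rw [Sym2.eq_swap]; exact h3
            · rw [if_neg (fun h => haS h.1), if_neg (fun h => hbS h.1)]
      · rw [if_neg (fun h => hjl h.1), if_neg (fun h => hjl h.1)])
    have h1 := mem_span_of_lrk_eq _ hIE hI1 huvE
    rw [← psi_mem (psiA_anti n E)] at h1
    have h2 := span_zero f (psiA_anti (G := G) (X := X) (N := N) n E) (by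
      intro a b hab
      have habG : G.Adj a b := hE a b (hIE hab)
      unfold psiA
      rw [map_sub, hf, hf]
      simp only [g]
      have hm := lev_mem (X := X) (N := N) n a b
      by_cases hjl : lev X N n a b = l
      · rw [hjl] at hm ⊢
        simp only [true_and]
        by_cases haS : a ∈ S
        · by_cases hbS : b ∈ S
          · rw [if_pos ⟨haS, hm.1⟩, if_pos ⟨hbS, hm.2⟩, sub_self]
          · exact absurd hab (hcon a haS b ⟨hlj hm.2, hbS⟩ habG)
        · by_cases hbS : b ∈ S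
          · refine absurd ?_ (hcon b hbS a ⟨hlj hm.1, haS⟩ habG.symm)
            rw [Sym2.eq_swap]; exact hab
          · rw [if_neg (fun h => haS h.1), if_neg (fun h => hbS h.1), sub_self]
      · rw [if_neg (fun h => hjl h.1), if_neg (fun h => hjl h.1), sub_self]) h1
    unfold psiA at h2
    rw [map_sub, hf, hf, hlev u v hu.2 hv.1 ⟨hu.1, hvS⟩] at h2
    simp only [g, true_and] at h2
    rw [if_pos hu, if_neg hv.2] at h2
    norm_num at h2
  · intro S hne hne' hSE
    by_contra hcon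
    push Not at hcon
    obtain ⟨u, hu, v, hv, huv⟩ := h4.cc S (subset_univ _) hne (by
      rintro rfl
      obtain ⟨y, hy⟩ := hne'
      exact hy (mem_univ y))
    let g : V → ℚ := fun x => if x ∈ S then 1 else 0
    obtain ⟨f, hf⟩ := exists_fun (T := T2 G E) g (by
      rintro ⟨a, b⟩ ⟨h1, h2⟩
      simp only at h1 h2
      simp only [g]
      by_cases haS : a ∈ S
      · by_cases hbS : b ∈ S
        · rw [if_pos haS, if_pos hbS]
        · exact absurd (hSE a haS b hbS h1) h2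
      · by_cases hbS : b ∈ S
        · refine absurd (hSE b hbS a haS h1.symm) ?_
          rw [Sym2.eq_swap]; exact h2
        · rw [if_neg haS, if_neg hbS])
    have h1 := mem_span_of_lrk_eq _ Finset.sdiff_subset hI2 (hSE u hu v hv.2 huv)
    rw [← psi_mem (psiB_anti E)] at h1
    have h2 := span_zero f (psiB_anti (G := G) E) (by
      intro a b hab
      rw [Finset.mem_coe, Finset.mem_sdiff] at hab
      have habG : G.Adj a b := hE a b hab.1
      unfold psiB
      rw [map_sub, hf, hf]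
      simp only [g]
      by_cases haS : a ∈ S
      · by_cases hbS : b ∈ S
        · rw [if_pos haS, if_pos hbS, sub_self]
        · exact absurd (hcon a haS b hbS habG) hab.2
      · by_cases hbS : b ∈ S
        · refine absurd (hcon b hbS a haS habG.symm) ?_
          rw [Sym2.eq_swap]; exact hab.2
        · rw [if_neg haS, if_neg hbS, sub_self]) h1
    unfold psiB at h2
    rw [map_sub, hf, hf] at h2
    simp only [g] at h2
    rw [if_pos hu, if_neg hv.2] at h2
    norm_num at h2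

/-- **The limit.** -/
theorem exists_lim (hS : Sys G X N o) (h4 : Four G) : ∃ H, Lim G H X N := by
  classical
  have hstep : ∀ p : Finset (Sym2 V) × ℕ, ∃ I, FinOut G X N p.2
      (p.1.filter (fun e => e ∈ G.edgeSet)) I := fun p => by
    refine fin_step hS h4 p.2 _ ?_
    intro u v h
    exact (Finset.mem_filter.1 h).2
  choose J hJ using hstep
  let U : Ultrafilter (Finset (Sym2 V) × ℕ) := Ultrafilter.of atTop
  have hU : ∀ {p : Finset (Sym2 V) × ℕ → Prop}, (∀ᶠ n in atTop, p n) →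
      ∀ᶠ n in (U : Filter (Finset (Sym2 V) × ℕ)), p n := fun h => Ultrafilter.of_le _ h
  let H : SimpleGraph V :=
    { Adj := fun u v => G.Adj u v ∧ ∀ᶠ n in (U : Filter (Finset (Sym2 V) × ℕ)), s(u, v) ∈ J n
      symm := ⟨fun u v h => ⟨h.1.symm, by rw [Sym2.eq_swap]; exact h.2⟩⟩
      loopless := ⟨fun v h => G.loopless.irrefl v h.1⟩ }
  -- the finite set of edges of a finite set of pairs
  have hev : ∀ {S T : Set V}, (prs G S T).Finite → ∀ m : ℕ,
      ∀ᶠ p : Finset (Sym2 V) × ℕ in atTop, m ≤ p.2 ∧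
        ∀ u ∈ S, ∀ v ∈ T, G.Adj u v → s(u, v) ∈ p.1.filter (fun e => e ∈ G.edgeSet) := by
    intro S T hfin m
    refine eventually_atTop.2 ⟨((hfin.image fun q => s(q.1, q.2)).toFinset, m), ?_⟩
    rintro ⟨F, k⟩ ⟨h1, h2⟩
    refine ⟨h2, fun u hu v hv huv => Finset.mem_filter.2 ⟨h1 ?_, huv⟩⟩
    rw [Set.Finite.mem_toFinset]
    exact ⟨(u, v), ⟨hu, hv, huv⟩, rfl⟩
  -- cuts of universes
  have huniv : ∀ j, ∀ S ⊆ W X N j, S.Nonempty → S ≠ W X N j → (prs G S (W X N j \ S)).Finite →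
      ∃ u ∈ S, ∃ v ∈ W X N j \ S, H.Adj u v := by
    intro j S hSj hne hneq hfin
    have h1 : ∀ᶠ p in (U : Filter (Finset (Sym2 V) × ℕ)),
        ∃ q ∈ prs G S (W X N j \ S), s(q.1, q.2) ∈ J p := by
      refine (hU (hev hfin j)).mono fun p hp => ?_
      obtain ⟨u, hu, v, hv, h1, h2⟩ := (hJ p).univs j hp.1 S hSj hne hneq hp.2
      exact ⟨(u, v), ⟨hu, hv, h1⟩, h2⟩
    rw [Ultrafilter.eventually_exists_mem_iff hfin] at h1
    obtain ⟨⟨u, v⟩, ⟨hu, hv, h2⟩, h3⟩ := h1
    exact ⟨u, hu, v, hv, h2, h3⟩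
  refine ⟨H, fun u v h => h.1, ?_, ?_, ?_⟩
  · intro S hne hne' hfin
    have h1 : W X N 0 \ S = Sᶜ := by
      ext y; simp [W]
    obtain ⟨u, hu, v, hv, huv⟩ := huniv 0 S (subset_univ _) hne (by
      rintro rfl
      obtain ⟨y, hy⟩ := hne'
      exact hy (mem_univ y)) (by rw [h1]; exact hfin)
    exact ⟨u, hu, v, hv.2, huv⟩
  · intro i S hSi hne hneq hfin
    exact huniv (i + 1) S hSi hne hneq hfin
  · intro S hne hne' hfin
    have h1 : ∀ᶠ p in (U : Filter (Finset (Sym2 V) × ℕ)),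
        ∃ q ∈ prs G S Sᶜ, s(q.1, q.2) ∉ J p := by
      refine (hU (hev hfin 0)).mono fun p hp => ?_
      obtain ⟨u, hu, v, hv, h1, h2⟩ := (hJ p).rest S hne hne'
        (fun u hu v hv huv => hp.2 u hu v hv huv)
      exact ⟨(u, v), ⟨hu, hv, h1⟩, h2⟩
    rw [Ultrafilter.eventually_exists_mem_iff hfin] at h1
    obtain ⟨⟨u, v⟩, ⟨hu, hv, h2⟩, h3⟩ := h1
    refine ⟨u, hu, v, hv, h2, fun h => ?_⟩
    obtain ⟨n, hn1, hn2⟩ := (h3.and h.2).exists
    exact hn1 hn2

end Pool.H17.HCC
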