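import Pool.Agent.Helper17.HCC.Vec
import Pool.Agent.Helper66.HC.Step

/-! # Rank bounds for the two matroids -/

open Set

namespace Pool.H17.HCC

open Pool.H66.HC

universe u

variable {V : Type u} {G : SimpleGraph V} {X N : ℕ → Set V} {o : V}

/-- a representative of a nonempty set -/
noncomputable def rep (o : V) (K : Set V) : V :=
  open Classical in if h : K.Nonempty then h.some else o

lemma rep_mem {K : Set V} (h : K.Nonempty) : rep o K ∈ K := by
  unfold rep
  rw [dif_pos h]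
  exact h.some_mem

section

variable [DecidableEq (Sym2 V)] {E A : Finset (Sym2 V)} {D : SimpleGraph V}
  (hD : ∀ u v, D.Adj u v ↔ G.Adj u v ∧ s(u, v) ∉ E \ A) (hA : A ⊆ E)

include hD

lemma rmv_fin : (rmv G D).Finite :=
  (fr_le_two_mul (G := G) (D := D) (F := E \ A) (by
    intro u v h1 h2
    by_contra h3
    exact h2 ((hD u v).2 ⟨h1, h3⟩))).1

lemma classes_fin (hcc : CC G univ) : {P | IsComp D univ P}.Finite := by
  refine ((finite_singleton univ).union ((rmv_fin hD).image fun p => compOf D univ p.1)).subset ?_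
  intro P hP
  by_cases h : P = univ
  · exact Or.inl h
  · obtain ⟨u, hu, v, hv, huv⟩ := hcc P (subset_univ _) hP.ne h
    refine Or.inr ⟨(u, v), ⟨huv, fun h => hv.2 (hP.closed u hu v trivial h)⟩, ?_⟩
    have h1 := isComp_compOf (D := D) (mem_univ u)
    rcases h1.eq_or_disjoint hP with h2 | h2
    · exact h2
    · exact absurd hu (Set.disjoint_left.1 h2 (mem_compOf (mem_univ u)))

lemma boundB (o : V) {Ps : Finset (Set V)} (hPs : ∀ P, P ∈ Ps ↔ IsComp D univ P) :
    lrk (evec (psiB G E)) E ≤ lrk (evec (psiB G E)) A + (Ps.card - 1) := by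
  classical
  set P0 := compOf D univ o with hP0
  have hP0c := isComp_compOf (D := D) (mem_univ o)
  have hP0m : P0 ∈ Ps := (hPs _).2 hP0c
  set T := (Ps.erase P0).image (fun P => pt (T2 G E) (rep o P) - pt (T2 G E) (rep o P0)) with hT
  set S := Submodule.span ℚ (evec (psiB G E) '' (A : Set (Sym2 V))) ⊔
    Submodule.span ℚ (T : Set ((V →₀ ℚ) ⧸ rel (T2 G E))) with hS
  have hcl : ∀ u, pt (T2 G E) u - pt (T2 G E) (rep o P0) ∈ S := by
    intro u
    have hc := isComp_compOf (D := D) (mem_univ u)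
    have h1 : pt (T2 G E) u - pt (T2 G E) (rep o (compOf D univ u)) ∈ S := by
      refine Submodule.mem_sup_left (conn_span hc.cc (fun u => pt (T2 G E) u) _ ?_
        (mem_compOf (mem_univ u)) (rep_mem hc.ne))
      intro a _ b _ hab
      obtain ⟨h1, h2⟩ := (hD a b).1 hab
      by_cases hE : s(a, b) ∈ E
      · have h3 : s(a, b) ∈ A := by
          by_contra h3
          exact h2 (Finset.mem_sdiff.2 ⟨hE, h3⟩)
        exact psi_span (psiB_anti E) (Finset.mem_coe.2 h3)
      · rw [pt_eq (show (a, b) ∈ T2 G E from ⟨h1, hE⟩), sub_self]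
        exact Submodule.zero_mem _
    by_cases h2 : compOf D univ u = P0
    · rwa [h2] at h1
    · have h3 : pt (T2 G E) (rep o (compOf D univ u)) - pt (T2 G E) (rep o P0) ∈ S := by
        refine Submodule.mem_sup_right (Submodule.subset_span ?_)
        rw [Finset.mem_coe, hT, Finset.mem_image]
        exact ⟨_, Finset.mem_erase.2 ⟨h2, (hPs _).2 hc⟩, rfl⟩
      have := S.add_mem h1 h3
      simpa using this
  refine (lrk_le _ (A := A) (E := E) T ?_).trans ?_
  · intro e he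
    induction e using Sym2.ind with
    | _ u v =>
      have h1 := S.sub_mem (hcl u) (hcl v)
      have h2 : psiB G E u v ∈ S := by
        unfold psiB
        simpa using h1
      exact (psi_mem (psiB_anti E)).1 h2
  · refine Nat.add_le_add_left (Finset.card_image_le.trans ?_) _
    rw [Finset.card_erase_of_mem hP0m]

end

section first

variable {n : ℕ} {E A' : Finset (Sym2 V)} (hS : Sys G X N o)

/-- the parent universe -/
noncomputable def par (X N : ℕ → Set V) (l : ℕ) : ℕ :=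
  open Classical in Nat.findGreatest (fun j => j < l ∧ W X N l ⊆ W X N j) l

lemma par_lt {l : ℕ} (hl : 0 < l) : par X N l < l ∧ W X N l ⊆ W X N (par X N l) := by
  classical
  exact Nat.findGreatest_spec (P := fun j => j < l ∧ W X N l ⊆ W X N j) (Nat.zero_le l)
    ⟨hl, subset_univ _⟩

lemma le_par {l j : ℕ} (h1 : j < l) (h2 : W X N l ⊆ W X N j) : j ≤ par X N l := by
  classical
  exact Nat.le_findGreatest h1.le ⟨h1, h2⟩

include hS

/-- points of a component are equivalent -/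
lemma comp_equiv {P K : Set V} {j : ℕ} (hj : j ≤ n) (hK : IsComp G (P ∩ W X N j) K)
    (hA' : ∀ u ∈ P, ∀ v ∈ P, s(u, v) ∈ E → s(u, v) ∈ A') {u v : V} (hu : u ∈ K) (hv : v ∈ K) :
    pt (T1 G X N n E) (j, u) - pt (T1 G X N n E) (j, v) ∈
      Submodule.span ℚ (evec (psiA G X N n E) '' (A' : Set (Sym2 V))) := by
  refine conn_span hK.cc (fun u => pt (T1 G X N n E) (j, u)) _ ?_ hu hv
  intro a ha b hb hab
  have ha' := hK.sub ha
  have hb' := hK.sub hb
  change pt (T1 G X N n E) (j, a) - pt (T1 G X N n E) (j, b) ∈ _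
  rcases (le_lev hj ha'.2 hb'.2).eq_or_lt with h | h
  · by_cases hE : s(a, b) ∈ E
    · have h1 := psi_span (psiA_anti (G := G) (X := X) (N := N) n E)
        (Finset.mem_coe.2 (hA' a ha'.1 b hb'.1 hE))
      unfold psiA at h1
      rw [← h] at h1
      exact h1
    · rw [pt_eq (show ((j, a), (j, b)) ∈ T1 G X N n E from ⟨rfl, Or.inr ⟨hab, hE, h.symm⟩⟩),
        sub_self]
      exact Submodule.zero_mem _
  · have hm := lev_mem (X := X) (N := N) n a b
    rw [pt_eq (show ((j, a), (j, b)) ∈ T1 G X N n E from ⟨rfl, Or.inl ⟨_, h, lev_le n a b,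
      hS.lam' h.le ha'.2 hm.1, hm.1, hm.2⟩⟩), sub_self]
    exact Submodule.zero_mem _

lemma W_cc (j : ℕ) : CC G (W X N j) := by
  intro A hA hne hneq
  by_contra hcon
  push Not at hcon
  have h1 : prs G A (W X N j \ A) = ∅ := by
    rw [Set.eq_empty_iff_forall_notMem]
    rintro ⟨a, b⟩ ⟨ha, hb, hab⟩
    exact hcon a ha b hb hab
  have h2 := hS.tc_W j A hA hne hneq (by rw [h1]; exact finite_empty)
  rw [ce, h1, Set.ncard_empty] at h2
  omega

lemma W_ne (h4 : Four G) (j : ℕ) : (W X N j).Nonempty := by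
  rcases j with _ | i
  · exact ⟨o, mem_univ _⟩
  · obtain ⟨u, hu, -⟩ := hS.exists_edge h4 i
    exact ⟨u, hu⟩

/-- every point is equivalent to a leaf or to a child ring that is split -/
lemma point_equiv (h4 : Four G) {P : Set V} {j : ℕ} (hj : j ≤ n)
    (hjP : ¬ W X N j ⊆ P)
    (hA' : ∀ u ∈ P, ∀ v ∈ P, s(u, v) ∈ E → s(u, v) ∈ A') {x : V} (hx : x ∈ W X N j)
    (hxP : x ∈ P) :
    (∃ K, (j, K) ∈ leaves G X N n P ∧ pt (T1 G X N n E) (j, x) - pt (T1 G X N n E) (j, rep o K) ∈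
      Submodule.span ℚ (evec (psiA G X N n E) '' (A' : Set (Sym2 V)))) ∨
    (∃ l, 0 < l ∧ l ≤ n ∧ par X N l = j ∧ ¬ W X N l ⊆ P ∧ (P ∩ W X N l).Nonempty ∧
      pt (T1 G X N n E) (j, x) - pt (T1 G X N n E) (j, rep o (W X N l)) ∈
      Submodule.span ℚ (evec (psiA G X N n E) '' (A' : Set (Sym2 V)))) := by
  classical
  have hK := isComp_compOf (D := G) (R := P ∩ W X N j) ⟨hxP, hx⟩
  set K := compOf G (P ∩ W X N j) x with hKdef
  have hxK : x ∈ K := mem_compOf ⟨hxP, hx⟩
  by_cases hl : (j, K) ∈ leaves G X N n P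
  · exact Or.inl ⟨K, hl, comp_equiv hS hj hK hA' hxK (rep_mem hK.ne)⟩
  · right
    have hex : ∃ l, j < l ∧ l ≤ n ∧ W X N l ⊆ W X N j ∧ (K ∩ W X N l).Nonempty ∧
        ¬ W X N l ⊆ K := by
      by_contra hcon
      push Not at hcon
      exact hl ⟨hj, hjP, hK, fun l h1 h2 h3 h5 => hcon l h1 h2 h3 h5⟩
    obtain ⟨h1, h2, h3, ⟨y, hyK, hyl⟩, h6⟩ := Nat.find_spec hex
    have hmin : ∀ m, (j < m ∧ m ≤ n ∧ W X N m ⊆ W X N j ∧ (K ∩ W X N m).Nonempty ∧
        ¬ W X N m ⊆ K) → Nat.find hex ≤ m := fun m hm => Nat.find_min' hex hm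
    set l := Nat.find hex with hldef
    refine ⟨l, by omega, h2, ?_, ?_, ⟨y, (hK.sub hyK).1, hyl⟩, ?_⟩
    · have h7 := le_par h1 h3
      rcases h7.eq_or_lt with h | h
      · exact h.symm
      · exfalso
        obtain ⟨h8, h9⟩ := par_lt (X := X) (N := N) (show 0 < l by omega)
        have h10 := hmin (par X N l) ⟨h, by omega, hS.lam' h.le (h3 hyl) (h9 hyl),
          ⟨y, hyK, h9 hyl⟩, fun h => h6 (h9.trans h)⟩
        omega
    · intro hlP
      apply h6
      by_contra hcon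
      obtain ⟨a, ha, b, hb, hab⟩ := W_cc hS l (K ∩ W X N l) inter_subset_right ⟨y, hyK, hyl⟩
        (fun h => hcon (by rw [← h]; exact inter_subset_left))
      exact hb.2 ⟨hK.closed a ha.1 b ⟨hlP hb.1, h3 hb.1⟩ hab, hb.1⟩
    · have h7 := comp_equiv hS hj hK hA' hxK hyK
      have h8 : pt (T1 G X N n E) (j, y) = pt (T1 G X N n E) (j, rep o (W X N l)) :=
        pt_eq ⟨rfl, Or.inl ⟨l, h1, h2, h3, hyl, rep_mem (W_ne hS h4 l)⟩⟩
      rw [h8] at h7
      exact h7

/-- the rank bound for the first matroid -/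
lemma boundA (h4 : Four G) {Ps : Finset (Set V)}
    (hcov : ∀ x, ∃ P ∈ Ps, x ∈ P) (hdis : ∀ P ∈ Ps, ∀ Q ∈ Ps, P ≠ Q → Disjoint P Q)
    (hPu : ∀ P ∈ Ps, P ≠ univ)
    (hA' : ∀ P ∈ Ps, ∀ u ∈ P, ∀ v ∈ P, s(u, v) ∈ E → s(u, v) ∈ A') (L : Finset (ℕ × Set V))
    (hL : ∀ P ∈ Ps, ∀ t ∈ leaves G X N n P, t ∈ L) (hL' : ∀ t ∈ L, ∃ P ∈ Ps, t ∈ leaves G X N n P) :
    lrk (evec (psiA G X N n E)) E ≤ lrk (evec (psiA G X N n E)) A' + (L.card - 1) := by
  classical
  set Sp : Finset ℕ := (Finset.range (n + 1)).filter (fun j => ∀ P ∈ Ps, ¬ W X N j ⊆ P) with hSp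
  have hSp0 : 0 ∈ Sp := by
    rw [hSp, Finset.mem_filter]
    exact ⟨Finset.mem_range.2 (Nat.succ_pos n), fun P hP h => hPu P hP (univ_subset_iff.1 h)⟩
  set I1 : Finset ((ℕ × Set V) ⊕ ℕ) := L.disjSum (Sp.erase 0) with hI1
  let ui : (ℕ × Set V) ⊕ ℕ → ℕ := Sum.elim Prod.fst (par X N)
  let w : (ℕ × Set V) ⊕ ℕ → ((ℕ × V) →₀ ℚ) ⧸ rel (T1 G X N n E) :=
    Sum.elim (fun t => pt (T1 G X N n E) (t.1, rep o t.2))
      (fun l => pt (T1 G X N n E) (par X N l, rep o (W X N l)))
  have hmaps : ∀ i ∈ I1, ui i ∈ Sp := by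
    rintro (t | l) hi
    · rw [hI1, Finset.inl_mem_disjSum] at hi
      obtain ⟨P, hP, ht⟩ := hL' t hi
      change t.1 ∈ Sp
      rw [hSp, Finset.mem_filter, Finset.mem_range]
      refine ⟨Nat.lt_succ_of_le ht.1, fun Q hQ hsub => ?_⟩
      obtain ⟨y, hy⟩ := ht.2.2.1.ne
      have hy' := ht.2.2.1.sub hy
      by_cases hPQ : P = Q
      · subst hPQ; exact ht.2.1 hsub
      · exact Set.disjoint_left.1 (hdis P hP Q hQ hPQ) hy'.1 (hsub hy'.2)
    · rw [hI1, Finset.inr_mem_disjSum, Finset.mem_erase, hSp, Finset.mem_filter,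
        Finset.mem_range] at hi
      change par X N l ∈ Sp
      rw [hSp, Finset.mem_filter, Finset.mem_range]
      obtain ⟨h1, h2⟩ := par_lt (X := X) (N := N) (show 0 < l by omega)
      exact ⟨by omega, fun Q hQ hsub => hi.2.2 Q hQ (h2.trans hsub)⟩
  set S0 := Submodule.span ℚ (evec (psiA G X N n E) '' (A' : Set (Sym2 V))) with hS0
  -- every point is equivalent to an index vector
  have hpt : ∀ j ∈ Sp, ∀ x ∈ W X N j, ∃ i ∈ I1, ui i = j ∧ pt (T1 G X N n E) (j, x) - w i ∈ S0 := by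
    intro j hj x hx
    rw [hSp, Finset.mem_filter, Finset.mem_range] at hj
    obtain ⟨P, hP, hxP⟩ := hcov x
    rcases point_equiv hS h4 (Nat.lt_succ_iff.1 hj.1) (hj.2 P hP) (hA' P hP) hx hxP with
      ⟨K, h1, h2⟩ | ⟨l, h1, h2, h3, h5, h6, h7⟩
    · exact ⟨Sum.inl (j, K), by rw [hI1, Finset.inl_mem_disjSum]; exact hL P hP _ h1, rfl, h2⟩
    · refine ⟨Sum.inr l, ?_, h3, ?_⟩
      · rw [hI1, Finset.inr_mem_disjSum, Finset.mem_erase, hSp, Finset.mem_filter,
          Finset.mem_range]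
        refine ⟨by omega, by omega, fun Q hQ hsub => ?_⟩
        obtain ⟨y, hyP, hyl⟩ := h6
        by_cases hPQ : P = Q
        · subst hPQ; exact h5 hsub
        · exact Set.disjoint_left.1 (hdis P hP Q hQ hPQ) hyP (hsub hyl)
      · change _ - pt (T1 G X N n E) (par X N l, rep o (W X N l)) ∈ S0
        rw [h3]
        exact h7
  -- references
  have href : ∀ j, ∃ r, j ∈ Sp → r ∈ I1 ∧ ui r = j := by
    intro j
    by_cases hj : j ∈ Sp
    · obtain ⟨x, hx⟩ := W_ne hS h4 j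
      obtain ⟨i, h1, h2, -⟩ := hpt j hj x hx
      exact ⟨i, fun _ => ⟨h1, h2⟩⟩
    · exact ⟨Sum.inr 0, fun h => absurd h hj⟩
  choose r hr using href
  set T : Finset (((ℕ × V) →₀ ℚ) ⧸ rel (T1 G X N n E)) :=
    Sp.biUnion (fun j => ((I1.filter (fun i => ui i = j)).erase (r j)).image
      (fun i => w i - w (r j))) with hT
  set S := S0 ⊔ Submodule.span ℚ (T : Set (((ℕ × V) →₀ ℚ) ⧸ rel (T1 G X N n E))) with hSS
  have hpt' : ∀ j ∈ Sp, ∀ x ∈ W X N j, pt (T1 G X N n E) (j, x) - w (r j) ∈ S := by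
    intro j hj x hx
    obtain ⟨i, h1, h2, h3⟩ := hpt j hj x hx
    have h5 := Submodule.mem_sup_left (T := Submodule.span ℚ
      (T : Set (((ℕ × V) →₀ ℚ) ⧸ rel (T1 G X N n E)))) h3
    by_cases hir : i = r j
    · rw [← hir]; exact h5
    · have h6 : w i - w (r j) ∈ S := by
        refine Submodule.mem_sup_right (Submodule.subset_span ?_)
        rw [Finset.mem_coe, hT, Finset.mem_biUnion]
        refine ⟨j, hj, Finset.mem_image.2 ⟨i, Finset.mem_erase.2 ⟨hir, ?_⟩, rfl⟩⟩
        exact Finset.mem_filter.2 ⟨h1, h2⟩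
      have := S.add_mem h5 h6
      simpa using this
  have hTc : T.card ≤ L.card - 1 := by
    have h1 : T.card ≤ ∑ j ∈ Sp, ((I1.filter (fun i => ui i = j)).card - 1) := by
      refine Finset.card_biUnion_le.trans (Finset.sum_le_sum fun j hj => ?_)
      refine Finset.card_image_le.trans ?_
      rw [Finset.card_erase_of_mem (Finset.mem_filter.2 (hr j hj))]
    have h2 : I1.card = ∑ j ∈ Sp, (I1.filter (fun i => ui i = j)).card :=
      Finset.card_eq_sum_card_fiberwise hmaps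
    have h3 : ∑ j ∈ Sp, ((I1.filter (fun i => ui i = j)).card - 1) + Sp.card =
        ∑ j ∈ Sp, (I1.filter (fun i => ui i = j)).card := by
      rw [Finset.card_eq_sum_ones, ← Finset.sum_add_distrib]
      refine Finset.sum_congr rfl fun j hj => ?_
      have : 0 < (I1.filter (fun i => ui i = j)).card :=
        Finset.card_pos.2 ⟨r j, Finset.mem_filter.2 (hr j hj)⟩
      omega
    have h5 : I1.card = L.card + (Sp.card - 1) := by
      rw [hI1, Finset.card_disjSum, Finset.card_erase_of_mem hSp0]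
    have h6 : 0 < Sp.card := Finset.card_pos.2 ⟨0, hSp0⟩
    omega
  refine (lrk_le _ (A := A') (E := E) T ?_).trans (Nat.add_le_add_left hTc _)
  intro e he
  induction e using Sym2.ind with
  | _ u v =>
    have hlev := lev_mem (X := X) (N := N) n u v
    have hlevn := lev_le (X := X) (N := N) n u v
    by_cases hj : lev X N n u v ∈ Sp
    · have h1 := S.sub_mem (hpt' _ hj u hlev.1) (hpt' _ hj v hlev.2)
      have h2 : psiA G X N n E u v ∈ S := by
        unfold psiA
        simpa using h1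
      exact (psi_mem (psiA_anti (G := G) (X := X) (N := N) n E)).1 h2
    · rw [hSp, Finset.mem_filter, Finset.mem_range] at hj
      push Not at hj
      obtain ⟨P, hP, hsub⟩ := hj (Nat.lt_succ_of_le hlevn)
      have h1 := hA' P hP u (hsub hlev.1) v (hsub hlev.2) he
      exact Submodule.mem_sup_left (Submodule.subset_span ⟨_, Finset.mem_coe.2 h1, rfl⟩)

end first

end Pool.H17.HCC
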