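import Pool.Agent.Helper17.HCC.Sys

/-! # The leaf count -/

open Set

namespace Pool.H17.HCC

open Pool.H66.HC

universe u

variable {V : Type u} {G : SimpleGraph V} {X N : ℕ → Set V} {o : V}

/-- the universes: `W 0` is everything, `W (i + 1)` is the ring `i` -/
def W (X N : ℕ → Set V) : ℕ → Set V
  | 0 => univ
  | i + 1 => X i \ N i

/-- the leaves of `P`: pairs `(j, K)`, `K` a component of `P ∩ W j`, `W j` not inside `P`, no
universe strictly inside `W j` is partly met by `K` -/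
def leaves (G : SimpleGraph V) (X N : ℕ → Set V) (n : ℕ) (P : Set V) : Set (ℕ × Set V) :=
  {p | p.1 ≤ n ∧ ¬ W X N p.1 ⊆ P ∧ IsComp G (P ∩ W X N p.1) p.2 ∧
    ∀ l, p.1 < l → l ≤ n → W X N l ⊆ W X N p.1 → (p.2 ∩ W X N l).Nonempty → W X N l ⊆ p.2}

lemma prs_anti_fin {S T S' T' : Set V} (h : (prs G S' T').Finite) (h1 : S ⊆ S') (h2 : T ⊆ T') :
    (prs G S T).Finite := h.subset (prs_mono h1 h2)

namespace Sys

variable (hS : Sys G X N o)

include hS

lemma atom {i j : ℕ} (h : i < j) {x y : V} (hx : x ∈ X j) (hy : y ∈ X j) :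
    (x ∈ X i ↔ y ∈ X i) ∧ (x ∈ N i ↔ y ∈ N i) := by
  rcases hS.nest i j h with h1 | h1 | h1
  · exact ⟨iff_of_true (hS.sub i (h1 hx)) (hS.sub i (h1 hy)), iff_of_true (h1 hx) (h1 hy)⟩
  · exact ⟨iff_of_true (h1 hx).1 (h1 hy).1, iff_of_false (h1 hx).2 (h1 hy).2⟩
  · rw [Set.disjoint_left] at h1
    exact ⟨iff_of_false (h1 hx) (h1 hy),
      iff_of_false (fun h => h1 hx (hS.sub i h)) (fun h => h1 hy (hS.sub i h))⟩

lemma edge_atom {i j : ℕ} (h : i < j) {u v : V} (hu : u ∈ X j) (huv : G.Adj u v) :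
    (u ∈ X i ↔ v ∈ X i) ∧ (u ∈ N i ↔ v ∈ N i) := by
  refine ⟨⟨fun h1 => ?_, fun h1 => ?_⟩, ⟨fun h1 => ?_, fun h1 => ?_⟩⟩
  · by_contra h2
    exact (hS.prot i j h u v huv (Or.inl ⟨h1, h2⟩)).1 hu
  · by_contra h2
    exact (hS.prot i j h v u huv.symm (Or.inl ⟨h1, h2⟩)).2 hu
  · by_contra h2
    exact (hS.prot i j h u v huv (Or.inr ⟨h1, h2⟩)).1 hu
  · by_contra h2
    exact (hS.prot i j h v u huv.symm (Or.inr ⟨h1, h2⟩)).2 hu

/-- an edge leaving a ring is protected -/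
lemma ring_prot {i j : ℕ} (h : i < j) {u v : V} (huv : G.Adj u v) (hu : u ∈ X i \ N i)
    (hv : v ∉ X i \ N i) : u ∉ X j ∧ v ∉ X j := by
  by_cases h1 : v ∈ X i
  · have h2 : v ∈ N i := by
      by_contra h2
      exact hv ⟨h1, h2⟩
    exact (hS.prot i j h v u huv.symm (Or.inr ⟨h2, hu.2⟩)).symm
  · exact hS.prot i j h u v huv (Or.inl ⟨hu.1, h1⟩)

lemma lam {i j : ℕ} (h : i < j) : W X N j ⊆ W X N i ∨ Disjoint (W X N j) (W X N i) := by
  rcases i with _ | i
  · exact Or.inl (subset_univ _)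
  rcases j with _ | j
  · omega
  rcases hS.nest i j (by omega) with h1 | h1 | h1
  · right
    rw [Set.disjoint_left]
    intro x hx hx'
    exact hx'.2 (h1 hx.1)
  · exact Or.inl fun x hx => h1 hx.1
  · right
    rw [Set.disjoint_left] at h1 ⊢
    intro x hx hx'
    exact h1 hx.1 hx'.1

lemma lam' {i j : ℕ} (h : i ≤ j) {x : V} (hx : x ∈ W X N i) (hx' : x ∈ W X N j) :
    W X N j ⊆ W X N i := by
  rcases h.eq_or_lt with rfl | h
  · exact subset_rfl
  · rcases hS.lam h with h1 | h1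
    · exact h1
    · exact absurd hx (Set.disjoint_left.1 h1 hx')

variable (h4 : Four G)

include h4

lemma four_X (i : ℕ) : 4 ≤ ce G (X i) (X i)ᶜ :=
  h4 _ ((hS.ne i).mono (hS.sub i)) ⟨o, hS.root i⟩ (hS.finX i)

lemma exists_edge (i : ℕ) : ∃ u ∈ X i \ N i, ∃ v, v ∉ X i ∧ G.Adj u v := by
  have h1 := hS.four_X h4 i
  have h2 : (prs G (X i) (X i)ᶜ).Nonempty := by
    rw [nonempty_iff_ne_empty]
    intro he
    rw [ce, he, Set.ncard_empty] at h1
    omega
  obtain ⟨⟨u, v⟩, hu, hv, huv⟩ := h2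
  exact ⟨u, ⟨hu, fun h => hS.sep i u h v hv huv⟩, v, hv, huv⟩

lemma not_sub {i j : ℕ} (h : i < j) : ¬ W X N i ⊆ W X N j := by
  intro hsub
  rcases j with _ | j
  · omega
  rcases i with _ | i
  · exact hS.root j (hsub (mem_univ o)).1
  obtain ⟨u, hu, v, hv, huv⟩ := hS.exists_edge h4 i
  exact (hS.prot i j (by omega) u v huv (Or.inl ⟨hu.1, hv⟩)).1 (hsub hu).1

omit h4 in
lemma zone_ring {i : ℕ} {x : V} (hx : x ∈ X i \ N i) : zone X N (i + 1) x = X i \ N i := by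
  ext y
  constructor
  · intro hy
    have := hy i (Nat.lt_succ_self i)
    exact ⟨this.1.2 hx.1, fun h => hx.2 (this.2.1 h)⟩
  · intro hy j hj
    rcases Nat.lt_succ_iff_lt_or_eq.1 hj with h | rfl
    · exact hS.atom h hy.1 hx.1
    · exact ⟨iff_of_true hy.1 hx.1, iff_of_false hy.2 hx.2⟩

omit h4 in
lemma tc_W (j : ℕ) : TCi G (W X N j) := by
  rcases j with _ | i
  · have h1 := hS.tc 0 o
    have h2 : zone X N 0 o = univ := by
      ext y; simp [zone]
    rw [h2] at h1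
    exact h1
  · intro A hA hne
    obtain ⟨x, hx⟩ := hne
    have h1 := hS.tc (i + 1) x
    rw [hS.zone_ring (hA hx)] at h1
    exact h1 A hA ⟨x, hx⟩

end Sys

/-- the counting lemma -/
lemma count_disjoint {ι : Type*} (T : Set ι) (Δ : ι → Set (V × V)) (D S : Set (V × V))
    (hD : D.Finite) (hSD : S ⊆ D) (hΔ : ∀ t ∈ T, Δ t ⊆ D) (h2 : ∀ t ∈ T, 2 ≤ (Δ t).ncard)
    (hd : ∀ t ∈ T, ∀ t' ∈ T, t ≠ t' → Disjoint (Δ t) (Δ t')) (hd' : ∀ t ∈ T, Disjoint (Δ t) S) :
    T.Finite ∧ 2 * T.ncard + S.ncard ≤ D.ncard := by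
  classical
  have key : ∀ F : Finset ι, (∀ t ∈ F, t ∈ T) → 2 * F.card + S.ncard ≤ D.ncard := by
    intro F hF
    have h1 : (F.biUnion fun t => if h : t ∈ T then (hD.subset (hΔ t h)).toFinset else ∅).card =
        ∑ t ∈ F, (Δ t).ncard := by
      rw [Finset.card_biUnion]
      · refine Finset.sum_congr rfl fun t ht => ?_
        rw [dif_pos (hF t ht), Set.ncard_eq_toFinset_card _ (hD.subset (hΔ t (hF t ht)))]
      · intro t ht t' ht' hne
        simp only [Function.onFun]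
        rw [dif_pos (hF t ht), dif_pos (hF t' ht'), Finset.disjoint_left]
        intro p hp hp'
        rw [Set.Finite.mem_toFinset] at hp hp'
        exact Set.disjoint_left.1 (hd t (hF t ht) t' (hF t' ht') hne) hp hp'
    have h3 : F.card * 2 ≤ ∑ t ∈ F, (Δ t).ncard :=
      Finset.card_nsmul_le_sum _ _ _ fun t ht => h2 t (hF t ht)
    set B := F.biUnion fun t => if h : t ∈ T then (hD.subset (hΔ t h)).toFinset else ∅ with hB
    have hdis : Disjoint B (hD.subset hSD).toFinset := by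
      rw [Finset.disjoint_left]
      intro p hp hp'
      rw [hB, Finset.mem_biUnion] at hp
      obtain ⟨t, ht, hp⟩ := hp
      rw [dif_pos (hF t ht), Set.Finite.mem_toFinset] at hp
      rw [Set.Finite.mem_toFinset] at hp'
      exact Set.disjoint_left.1 (hd' t (hF t ht)) hp hp'
    have h5 : (B ∪ (hD.subset hSD).toFinset).card ≤ hD.toFinset.card := by
      refine Finset.card_le_card ?_
      intro p hp
      rw [Set.Finite.mem_toFinset]
      rw [Finset.mem_union] at hp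
      rcases hp with hp | hp
      · rw [hB, Finset.mem_biUnion] at hp
        obtain ⟨t, ht, hp⟩ := hp
        rw [dif_pos (hF t ht), Set.Finite.mem_toFinset] at hp
        exact hΔ t (hF t ht) hp
      · rw [Set.Finite.mem_toFinset] at hp
        exact hSD hp
    rw [Finset.card_union_of_disjoint hdis, h1, ← Set.ncard_eq_toFinset_card _ (hD.subset hSD),
      ← Set.ncard_eq_toFinset_card _ hD] at h5
    omega
  have hTf : T.Finite := by
    by_contra hinf
    obtain ⟨F, hF, hFc⟩ := Set.Infinite.exists_subset_card_eq hinf (D.ncard + 1)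
    have := key F (fun t ht => hF ht)
    omega
  refine ⟨hTf, ?_⟩
  have := key hTf.toFinset (fun t ht => by simpa using ht)
  rwa [← Set.ncard_eq_toFinset_card _ hTf] at this

section leafcount

variable (hS : Sys G X N o) {n : ℕ} {P : Set V}

/-- the edges of a leaf -/
def dl (G : SimpleGraph V) (X N : ℕ → Set V) (p : ℕ × Set V) : Set (V × V) :=
  prs G p.2 (W X N p.1 \ p.2)

lemma dl_sub {p : ℕ × Set V} (hp : p ∈ leaves G X N n P) : dl G X N p ⊆ prs G P Pᶜ := by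
  rintro ⟨u, v⟩ ⟨hu, hv, huv⟩
  have h1 := hp.2.2.1
  exact ⟨(h1.sub hu).1, fun hvP => hv.2 (h1.closed u hu v ⟨hvP, hv.1⟩ huv), huv⟩

include hS

lemma dl_disj {p q : ℕ × Set V} (hp : p ∈ leaves G X N n P) (hq : q ∈ leaves G X N n P)
    (hne : p ≠ q) : Disjoint (dl G X N p) (dl G X N q) := by
  have key : ∀ p q : ℕ × Set V, p ∈ leaves G X N n P → q ∈ leaves G X N n P → p.1 < q.1 →
      Disjoint (dl G X N p) (dl G X N q) := by
    intro p q hp hq hlt
    rw [Set.disjoint_left]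
    rintro ⟨u, v⟩ ⟨hu, hv, huv⟩ ⟨hu', hv', -⟩
    have h1 := hS.lam' hlt.le hv.1 hv'.1
    have h2 := hp.2.2.2 q.1 hlt hq.1 h1 ⟨u, hu, (hq.2.2.1.sub hu').2⟩
    exact hv.2 (h2 hv'.1)
  rcases lt_trichotomy p.1 q.1 with h | h | h
  · exact key p q hp hq h
  · have h1 : p.2 ≠ q.2 := fun h' => hne (Prod.ext h h')
    have hq' := hq.2.2.1
    rw [← h] at hq'
    have h2 := hp.2.2.1.disjoint hq' h1
    rw [Set.disjoint_left]
    rintro ⟨u, v⟩ ⟨hu, -, -⟩ ⟨hu', -, -⟩
    exact Set.disjoint_left.1 h2 hu hu'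
  · exact (key q p hq hp h).symm

lemma dl_two (hfin : (prs G P Pᶜ).Finite) {p : ℕ × Set V} (hp : p ∈ leaves G X N n P) : 2 ≤ (dl G X N p).ncard := by
  have h1 := hS.tc_W p.1 p.2 (fun x hx => (hp.2.2.1.sub hx).2) hp.2.2.1.ne (by
    rintro h
    apply hp.2.1
    rw [← h]
    exact fun x hx => (hp.2.2.1.sub hx).1) (hfin.subset (dl_sub hp))
  exact h1

/-- the counting lemma for leaves -/
lemma leaf_bound (hfin : (prs G P Pᶜ).Finite)
    (T : Set (ℕ × Set V)) (hT : T ⊆ leaves G X N n P) (S : Set (V × V)) (hSP : S ⊆ prs G P Pᶜ)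
    (hd : ∀ t ∈ T, Disjoint (dl G X N t) S) :
    T.Finite ∧ 2 * T.ncard + S.ncard ≤ ce G P Pᶜ :=
  count_disjoint T (dl G X N) (prs G P Pᶜ) S hfin hSP (fun _ ht => dl_sub (hT ht))
    (fun _ ht => dl_two hS hfin (hT ht))
    (fun _ ht _ ht' hne => dl_disj hS (hT ht) (hT ht') hne) hd

end leafcount

end Pool.H17.HCC
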