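import Pool.Agent.Helper17.HCC.LeafMain

/-! # The leaf inequality: the main case analysis -/

open Set

namespace Pool.H17.HCC

open Pool.H66.HC

universe u

variable {V : Type u} {G : SimpleGraph V} {X N : ℕ → Set V} {o : V}

/-- facts about the outer and inner ends of the region `l`, relative to a vertex `x` of `N l` -/
structure Around (G : SimpleGraph V) (X N : ℕ → Set V) (n j₀ l : ℕ) (x : V) : Prop where
  lj : j₀ ≤ l
  ln : l < n
  mem : x ∈ N l
  last : ∀ i, l < i → i < n → x ∉ N i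
  exact : Exact X N n j₀ x

variable (hS : Sys G X N o) {n j₀ l : ℕ} {x : V} (hA : Around G X N n j₀ l x)

include hS hA

/-- outer ends of `X l` are exact -/
lemma Around.out {u v : V} (hu : u ∈ X l) (hv : v ∉ X l) (huv : G.Adj u v) :
    Exact X N n j₀ v := by
  have hx : x ∈ X l := hS.sub l hA.mem
  have key : ∀ i < l, (v ∈ X i ↔ x ∈ X i) ∧ (v ∈ N i ↔ x ∈ N i) := by
    intro i hi
    have h1 := hS.atom hi hu hx
    have h2 := hS.edge_atom hi hu huv
    exact ⟨h2.1.symm.trans h1.1, h2.2.symm.trans h1.2⟩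
  have key' : ∀ i < l, v ∈ W X N (i + 1) ↔ x ∈ W X N (i + 1) := by
    intro i hi
    have := key i hi
    unfold W
    simp only [mem_sdiff]
    rw [this.1, this.2]
  constructor
  · rcases j₀ with _ | i₀
    · exact mem_univ _
    · exact (key' i₀ (by have := hA.lj; omega)).2 hA.exact.1
  · intro m h1 h2 h3
    obtain ⟨i, rfl⟩ : ∃ i, m = i + 1 := ⟨m - 1, by omega⟩
    rcases lt_trichotomy i l with h | h | h
    · exact hA.exact.2 (i + 1) h1 h2 ((key' i h).1 h3)
    · subst h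
      exact hv h3.1
    · exact (hS.prot l i h u v huv (Or.inl ⟨hu, hv⟩)).2 h3.1

/-- outer ends of `X l` are in fewer hubs -/
lemma Around.out_N {u v : V} (hu : u ∈ X l) (hv : v ∉ X l) (huv : G.Adj u v) {i : ℕ}
    (hi : v ∈ N i) : x ∈ N i ∧ i ≠ l := by
  have hx : x ∈ X l := hS.sub l hA.mem
  rcases lt_trichotomy i l with h | h | h
  · have h1 := hS.atom h hu hx
    have h2 := hS.edge_atom h hu huv
    exact ⟨(h2.2.symm.trans h1.2).1 hi, h.ne⟩
  · subst h
    exact absurd (hS.sub _ hi) hv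
  · exact absurd (hS.sub _ hi) (hS.prot l i h u v huv (Or.inl ⟨hu, hv⟩)).2

/-- inner ends of `N l` are in the zone of `x` -/
lemma Around.inner {u v : V} (hu : u ∈ N l) (hv : v ∉ N l) (huv : G.Adj u v) :
    u ∈ zone X N n x := by
  intro i hi
  rcases lt_trichotomy i l with h | h | h
  · exact hS.atom h (hS.sub l hu) (hS.sub l hA.mem)
  · subst h
    exact ⟨iff_of_true (hS.sub i hu) (hS.sub i hA.mem), iff_of_true hu hA.mem⟩
  · have h1 := (hS.prot l i h u v huv (Or.inr ⟨hu, hv⟩)).1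
    have h2 := hA.last i h hi
    have h3 : x ∉ X i := by
      intro h3
      refine hA.exact.2 (i + 1) (by have := hA.lj; omega) (by omega) ⟨h3, h2⟩
    exact ⟨iff_of_false h1 h3, iff_of_false (fun h => h1 (hS.sub i h)) h2⟩

omit hS hA in
/-- **The leaf inequality.** -/
theorem leaf_count (hS : Sys G X N o) (h4 : Four G) (n : ℕ) {P : Set V} (hPc : CC G P)
    (hPne : P.Nonempty) (ho : o ∉ P) (hfin : (prs G P Pᶜ).Finite) :
    (leaves G X N n P).Finite ∧ 2 * (leaves G X N n P).ncard + 2 ≤ ce G P Pᶜ := by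
  classical
  have hPne' : Pᶜ.Nonempty := ⟨o, ho⟩
  have hPu : P ≠ univ := by rintro rfl; exact ho (mem_univ o)
  obtain ⟨j₀, hj₀, hPW, hPne0, hmax⟩ : ∃ j₀ ≤ n, P ⊆ W X N j₀ ∧ P ≠ W X N j₀ ∧
      ∀ l, j₀ < l → l ≤ n → P ⊆ W X N l → P = W X N l := by
    have hspec := Nat.findGreatest_spec (P := fun j => P ⊆ W X N j ∧ P ≠ W X N j)
      (Nat.zero_le n) ⟨subset_univ _, hPu⟩
    refine ⟨_, Nat.findGreatest_le n, hspec.1, hspec.2, ?_⟩
    intro l h1 h2 h3
    by_contra h5
    exact Nat.findGreatest_is_greatest h1 h2 ⟨h3, h5⟩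
  have hPW' : ¬ W X N j₀ ⊆ P := fun h => hPne0 (hPW.antisymm h)
  by_cases hl : (j₀, P) ∈ leaves G X N n P
  · exact top_leaf hS h4 hPW hPW' hPc hPne hPne' hfin hl
  -- free edges
  have hfree : ∀ {u v : V}, u ∈ P → (∀ l ≤ n, u ∈ W X N l → v ∈ W X N l → W X N j₀ ⊆ W X N l) →
      ∀ t ∈ leaves G X N n P, (u, v) ∉ dl G X N t := fun hu huv =>
    free hS h4 hj₀ hPW hPW' hPc hl hu huv
  have hfreeu : ∀ {u v : V}, u ∈ P → Exact X N n j₀ u →
      ∀ t ∈ leaves G X N n P, (u, v) ∉ dl G X N t := fun hu hue =>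
    hfree hu fun l hl hul _ => (hue.sub hS hl hul).2
  have hfreev : ∀ {u v : V}, u ∈ P → Exact X N n j₀ v →
      ∀ t ∈ leaves G X N n P, (u, v) ∉ dl G X N t := fun hu hve =>
    hfree hu fun l hl _ hvl => (hve.sub hS hl hvl).2
  -- a zone is split
  by_cases hzs : ∃ x ∈ P, Exact X N n j₀ x ∧ ¬ zone X N n x ⊆ P
  · obtain ⟨x, hxP, hx, hz⟩ := hzs
    have h1 : prs G (P ∩ zone X N n x) (zone X N n x \ (P ∩ zone X N n x)) ⊆ prs G P Pᶜ := by
      rintro ⟨u, v⟩ ⟨hu, hv, huv⟩
      exact ⟨hu.1, fun h => hv.2 ⟨h, hv.1⟩, huv⟩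
    refine surplus hS hfin h1 ?_ ?_
    · exact hS.tc n x _ inter_subset_right ⟨x, hxP, mem_zone_self n x⟩ (fun h => hz (by
        rw [← h]; exact inter_subset_left)) (hfin.subset h1)
    · rintro t ht ⟨u, v⟩ ⟨hu, -, -⟩
      exact hfreeu hu.1 (hx.zone hj₀ hu.2) t ht
  push Not at hzs
  -- the minimal vertex
  let m : V → ℕ := fun x => ((Finset.Ico j₀ n).filter (fun i => x ∈ N i)).card
  obtain ⟨x, hxP, hx, hmin⟩ : ∃ x ∈ P, Exact X N n j₀ x ∧
      ∀ y ∈ P, Exact X N n j₀ y → m x ≤ m y := by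
    obtain ⟨x0, hx0, hx0'⟩ := exists_exact hS hj₀ hPW hPne hmax hPW' hPc hl
    have hex : ∃ k, ∃ x ∈ P, Exact X N n j₀ x ∧ m x = k := ⟨_, x0, hx0, hx0', rfl⟩
    obtain ⟨x, hx, hx', he⟩ := Nat.find_spec hex
    refine ⟨x, hx, hx', fun y hy hy' => ?_⟩
    rw [he]
    exact Nat.find_min' hex ⟨y, hy, hy', rfl⟩
  have hzx := hzs x hxP hx
  by_cases hJ : ((Finset.Ico j₀ n).filter (fun i => x ∈ N i)).Nonempty
  swap
  · -- `x` is in the root zone of the universe
    rw [Finset.not_nonempty_iff_eq_empty, Finset.filter_eq_empty_iff] at hJ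
    have hxX : ∀ i, j₀ ≤ i → i < n → x ∉ X i := by
      intro i h1 h2 h3
      exact hx.2 (i + 1) (by omega) (by omega) ⟨h3, hJ (Finset.mem_Ico.2 ⟨h1, h2⟩)⟩
    rcases j₀ with _ | i₀
    · exfalso
      apply ho
      apply hzx
      intro i hi
      have h1 := hxX i (Nat.zero_le _) hi
      exact ⟨iff_of_false (hS.root i) h1,
        iff_of_false (fun h => hS.root i (hS.sub i h)) (fun h => h1 (hS.sub i h))⟩
    · have h1 : prs G (X i₀) (X i₀)ᶜ ⊆ prs G P Pᶜ := by
        rintro ⟨u, v⟩ ⟨hu, hv, huv⟩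
        refine ⟨?_, fun hvP => hv (hPW hvP).1, huv⟩
        apply hzx
        have huN : u ∉ N i₀ := fun h => hS.sep i₀ u h v hv huv
        intro i hi
        rcases lt_trichotomy i i₀ with h | h | h
        · exact hS.atom h hu hx.1.1
        · subst h
          exact ⟨iff_of_true hu hx.1.1, iff_of_false huN hx.1.2⟩
        · have h1 := (hS.prot i₀ i h u v huv (Or.inl ⟨hu, hv⟩)).1
          have h2 := hxX i (by omega) hi
          exact ⟨iff_of_false h1 h2,
            iff_of_false (fun h => h1 (hS.sub i h)) (fun h => h2 (hS.sub i h))⟩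
      refine surplus hS hfin h1 ?_ ?_
      · have := hS.four_X h4 i₀
        unfold ce at this
        omega
      · rintro t ht ⟨u, v⟩ ⟨hu, hv, huv⟩
        have huP : u ∈ P := (h1 ⟨hu, hv, huv⟩).1
        refine hfree huP (fun l hl hul hvl => ?_) t ht
        rcases le_or_gt l (i₀ + 1) with h | h
        · exact hS.lam' h hul (hPW huP)
        · exact absurd (hS.lam' h.le (hPW huP) hul hvl).1 hv
  -- `x` is in a hub
  set l := ((Finset.Ico j₀ n).filter (fun i => x ∈ N i)).max' hJ with hldef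
  have hlmem := Finset.mem_filter.1 (Finset.max'_mem _ hJ)
  rw [← hldef] at hlmem
  obtain ⟨hl1, hl2⟩ := Finset.mem_Ico.1 hlmem.1
  have hA : Around G X N n j₀ l x := by
    refine ⟨hl1, hl2, hlmem.2, ?_, hx⟩
    intro i h1 h2 h3
    have h0 : j₀ ≤ i := by omega
    have h5 : i ≤ l := Finset.le_max' _ i (Finset.mem_filter.2 ⟨Finset.mem_Ico.2 ⟨h0, h2⟩, h3⟩)
    omega
  -- outer ends are not in `P`
  have hout : ∀ {u v : V}, u ∈ X l → v ∉ X l → G.Adj u v → v ∉ P := by
    intro u v hu hv huv hvP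
    have h1 := hA.out hS hu hv huv
    have h2 := hmin v hvP h1
    have h3 : m v < m x := by
      refine Finset.card_lt_card ?_
      rw [Finset.ssubset_iff_of_subset]
      · exact ⟨l, Finset.mem_filter.2 ⟨hlmem.1, hlmem.2⟩, fun h =>
          hv (hS.sub l (Finset.mem_filter.1 h).2)⟩
      · intro i hi
        rw [Finset.mem_filter] at hi ⊢
        exact ⟨hi.1, (hA.out_N hS hu hv huv hi.2).1⟩
    omega
  have hinn : ∀ {u v : V}, u ∈ N l → v ∉ N l → G.Adj u v → u ∈ P ∧ Exact X N n j₀ u := by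
    intro u v hu hv huv
    have h1 := hA.inner hS hu hv huv
    exact ⟨hzx h1, hx.zone hj₀ h1⟩
  -- all edges leaving `X l`
  have hdX : (∀ u v, u ∈ X l → v ∉ X l → G.Adj u v → u ∈ P) →
      (leaves G X N n P).Finite ∧ 2 * (leaves G X N n P).ncard + 2 ≤ ce G P Pᶜ := by
    intro hin
    have h1 : prs G (X l) (X l)ᶜ ⊆ prs G P Pᶜ := by
      rintro ⟨u, v⟩ ⟨hu, hv, huv⟩
      exact ⟨hin u v hu hv huv, hout hu hv huv, huv⟩
    refine surplus hS hfin h1 ?_ ?_
    · have := hS.four_X h4 l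
      unfold ce at this
      omega
    · rintro t ht ⟨u, v⟩ ⟨hu, hv, huv⟩
      exact hfreev (h1 ⟨hu, hv, huv⟩).1 (hA.out hS hu hv huv) t ht
  by_cases hR : X l \ N l ⊆ P
  · refine hdX fun u v hu hv huv => hR ⟨hu, fun h => hS.sep l u h v hv huv⟩
  by_cases hlv : ∀ K, IsComp G (P ∩ W X N (l + 1)) K → (l + 1, K) ∈ leaves G X N n P
  · -- the hub inequality
    set Q := P ∩ W X N (l + 1) with hQ
    have h1 : prs G (N l ∪ Q) (N l ∪ Q)ᶜ ⊆ prs G P Pᶜ := by
      rintro ⟨u, v⟩ ⟨hu, hv, huv⟩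
      have hvN : v ∉ N l := fun h => hv (Or.inl h)
      have hvQ : v ∉ Q := fun h => hv (Or.inr h)
      rcases hu with hu | hu
      · refine ⟨(hinn hu hvN huv).1, fun hvP => hvQ ⟨hvP, ?_, hvN⟩, huv⟩
        by_contra hvX
        exact hS.sep l u hu v hvX huv
      · refine ⟨hu.1, fun hvP => ?_, huv⟩
        by_cases hvX : v ∈ X l
        · exact hvQ ⟨hvP, hvX, hvN⟩
        · exact hout hu.2.1 hvX huv hvP
    have h2 := hS.hub l Q inter_subset_right (hfin.subset h1)
    set T : Set (ℕ × Set V) := {t | t ∈ leaves G X N n P ∧ t.1 ≠ l + 1} with hT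
    obtain ⟨hTf, hTc⟩ := leaf_bound hS hfin T (fun t ht => ht.1) _ h1 (by
      rintro ⟨j, K⟩ ⟨ht, hne⟩
      rw [Set.disjoint_left]
      rintro ⟨u, v⟩ hd ⟨hu, hv, huv⟩
      have hvN : v ∉ N l := fun h => hv (Or.inl h)
      have hvQ : v ∉ Q := fun h => hv (Or.inr h)
      rcases hu with hu | hu
      · obtain ⟨h5, h6⟩ := hinn hu hvN huv
        exact hfreeu h5 h6 _ ht hd
      · by_cases hvX : v ∈ X l
        · obtain ⟨hd1, hd2, -⟩ := hd
          simp only at hd1 hd2 hne
          have hvR : v ∈ W X N (l + 1) := ⟨hvX, hvN⟩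
          rcases lt_or_gt_of_ne hne with h | h
          · have h5 := hS.lam' h.le hd2.1 hvR
            have h6 := ht.2.2.2 (l + 1) h (by omega) h5 ⟨u, hd1, hu.2⟩
            exact hd2.2 (h6 hvR)
          · have h5 := hS.lam' h.le hvR hd2.1
            have hc := isComp_compOf (D := G) (R := Q) hu
            have h6 := (hlv _ hc).2.2.2 j h ht.1 h5 ⟨u, mem_compOf hu, (ht.2.2.1.sub hd1).2⟩
            exact ht.2.1 (h6.trans fun z hz => (hc.sub hz).1)
        · exact hfreev hu.1 (hA.out hS hu.2.1 hvX huv) _ ht hd)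
    set T' : Set (ℕ × Set V) := {t | t ∈ leaves G X N n P ∧ t.1 = l + 1} with hT'
    have hTT : leaves G X N n P = T ∪ T' := by
      ext t
      simp only [hT, hT', mem_union, mem_ofPred_eq]
      tauto
    have hall := leaf_bound hS hfin (leaves G X N n P) subset_rfl ∅ (empty_subset _)
      (fun _ _ => disjoint_empty _)
    have hT'c : T'.ncard = {K | IsComp G Q K}.ncard := by
      rw [← Set.ncard_image_of_injective {K | IsComp G Q K} (f := fun K => ((l + 1, K) : ℕ × Set V))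
        (fun a b h => by simpa using h)]
      congr 1
      ext ⟨j, K⟩
      constructor
      · rintro ⟨h1, h2⟩
        simp only at h2
        subst h2
        exact ⟨K, h1.2.2.1, rfl⟩
      · rintro ⟨K', h1, h2⟩
        obtain ⟨rfl, rfl⟩ := Prod.mk.inj h2
        exact ⟨hlv _ h1, rfl⟩
    have hun := Set.ncard_union_le T T'
    rw [← hTT] at hun
    refine ⟨hall.1, ?_⟩
    unfold ce at h2
    omega
  · -- a component of `P ∩ R` that is not a leaf
    push Not at hlv
    obtain ⟨K, hK, hKl⟩ := hlv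
    have hKP : K ⊆ P := fun z hz => (hK.sub hz).1
    have hxR : x ∉ K := fun h => (hK.sub h).2.2 hA.mem
    obtain ⟨a, ha, b, hb, hab⟩ := hPc K hKP hK.ne (fun h => hxR (by rw [h]; exact hxP))
    have haR : a ∈ X l \ N l := (hK.sub ha).2
    have hbR : b ∉ X l \ N l := fun h => hb.2 (hK.closed a ha b ⟨hb.1, h⟩ hab)
    have hazone : ∀ u ∈ X l \ N l, (∀ i, l < i → u ∉ X i) → u ∈ zone X N n a := by
      intro u hu hu' i hi
      rcases lt_trichotomy i l with h | h | h
      · exact hS.atom h hu.1 haR.1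
      · subst h
        exact ⟨iff_of_true hu.1 haR.1, iff_of_false hu.2 haR.2⟩
      · have h1 := hu' i h
        have h2 := (hS.ring_prot h hab haR hbR).1
        exact ⟨iff_of_false h1 h2,
          iff_of_false (fun h => h1 (hS.sub i h)) (fun h => h2 (hS.sub i h))⟩
    by_cases hz : zone X N n a ⊆ K
    · refine hdX fun u v hu hv huv => hKP (hz (hazone u ⟨hu, fun h => hS.sep l u h v hv huv⟩ ?_))
      intro i hi
      exact (hS.prot l i hi u v huv (Or.inl ⟨hu, hv⟩)).1
    · have hzR : zone X N n a ⊆ X l \ N l := by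
        intro z hz
        have := hz l hl2
        exact ⟨this.1.2 haR.1, fun h => haR.2 (this.2.1 h)⟩
      have hzlast : ∀ u ∈ zone X N n a, ∀ i, l < i → i < n → u ∉ X i := by
        intro u hu i h1 h2 h3
        exact (hS.ring_prot h1 hab haR hbR).1 ((hu i h2).1.1 h3)
      have h1 : prs G (K ∩ zone X N n a) (zone X N n a \ (K ∩ zone X N n a)) ⊆ prs G P Pᶜ := by
        rintro ⟨u, v⟩ ⟨hu, hv, huv⟩
        refine ⟨hKP hu.1, fun hvP => hv.2 ⟨?_, hv.1⟩, huv⟩
        exact hK.closed u hu.1 v ⟨hvP, hzR hv.1⟩ huv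
      refine surplus hS hfin h1 ?_ ?_
      · exact hS.tc n a _ inter_subset_right ⟨a, ha, mem_zone_self n a⟩ (fun h => hz (by
          rw [← h]; exact inter_subset_left)) (hfin.subset h1)
      · rintro ⟨j, K'⟩ ht ⟨u, v⟩ ⟨hu, hv, huv⟩ ⟨hd1, hd2, -⟩
        simp only at hd1 hd2
        have huR : u ∈ W X N (l + 1) := hzR hu.2
        have hvR : v ∈ W X N (l + 1) := hzR hv.1
        have huj : u ∈ W X N j := (ht.2.2.1.sub hd1).2
        rcases lt_trichotomy j (l + 1) with h | h | h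
        · have h5 := hS.lam' h.le huj huR
          exact hd2.2 (ht.2.2.2 (l + 1) h (by omega) h5 ⟨u, hd1, huR⟩ hvR)
        · subst h
          have h5 : K = K' := by
            rcases hK.eq_or_disjoint ht.2.2.1 with h | h
            · exact h
            · exact absurd hd1 (Set.disjoint_left.1 h hu.1)
          rw [h5] at hKl
          exact hKl ht
        · obtain ⟨i, rfl⟩ : ∃ i, j = i + 1 := ⟨j - 1, by omega⟩
          have := ht.1
          simp only at this
          exact hzlast u hu.2 i (by omega) (by omega) huj.1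

end Pool.H17.HCC
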