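import Pool.Agent.Helper17.HCC.Leaf

/-! # The leaf inequality -/

open Set

namespace Pool.H17.HCC

open Pool.H66.HC

universe u

variable {V : Type u} {G : SimpleGraph V} {X N : ℕ → Set V} {o : V}

/-- `x` belongs to the universe `j` but to no smaller one (up to stage `n`) -/
def Exact (X N : ℕ → Set V) (n j : ℕ) (x : V) : Prop :=
  x ∈ W X N j ∧ ∀ l, j < l → l ≤ n → x ∉ W X N l

lemma mem_zone_self (n : ℕ) (x : V) : x ∈ zone X N n x := fun _ _ => ⟨Iff.rfl, Iff.rfl⟩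

lemma zone_W {n : ℕ} {x y : V} (h : y ∈ zone X N n x) {l : ℕ} (hl : l ≤ n) :
    y ∈ W X N l ↔ x ∈ W X N l := by
  rcases l with _ | i
  · exact iff_of_true (mem_univ _) (mem_univ _)
  · have := h i (by omega)
    unfold W
    simp only [mem_sdiff]
    rw [this.1, this.2]

lemma Exact.zone {n j : ℕ} (hj : j ≤ n) {x y : V} (hx : Exact X N n j x) (h : y ∈ zone X N n x) :
    Exact X N n j y :=
  ⟨(zone_W h hj).2 hx.1, fun l h1 h2 h3 => hx.2 l h1 h2 ((zone_W h h2).1 h3)⟩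

variable (hS : Sys G X N o) {n : ℕ} {P : Set V}

include hS

/-- a vertex of exact universe `j` is only in universes containing `W j` -/
lemma Exact.sub {j l : ℕ} {x : V} (hx : Exact X N n j x) (hl : l ≤ n) (hxl : x ∈ W X N l) :
    l ≤ j ∧ W X N j ⊆ W X N l := by
  have h1 : l ≤ j := by
    by_contra hcon
    exact hx.2 l (by omega) hl hxl
  exact ⟨h1, hS.lam' h1 hxl hx.1⟩

variable (h4 : Four G)

include h4 in
/-- the free edges -/
lemma free {j₀ : ℕ} (hj₀ : j₀ ≤ n) (hPW : P ⊆ W X N j₀) (hPW' : ¬ W X N j₀ ⊆ P) (hPc : CC G P)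
    (hnl : (j₀, P) ∉ leaves G X N n P) {u v : V} (hu : u ∈ P)
    (huv : ∀ l ≤ n, u ∈ W X N l → v ∈ W X N l → W X N j₀ ⊆ W X N l) :
    ∀ t ∈ leaves G X N n P, (u, v) ∉ dl G X N t := by
  rintro ⟨j, K⟩ ht ⟨hu', hv', hadj⟩
  simp only at hu' hv'
  have h1 := huv j ht.1 (ht.2.2.1.sub hu').2 hv'.1
  have h2 : P ⊆ W X N j := hPW.trans h1
  have h3 : K = P := by
    have hK := ht.2.2.1
    simp only at hK
    rw [inter_eq_left.2 h2] at hK
    refine hK.sub.antisymm ?_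
    by_contra hcon
    obtain ⟨a, ha, b, hb, hab⟩ := hPc K hK.sub hK.ne (fun h => hcon (by rw [h]))
    exact hb.2 (hK.closed a ha b hb.1 hab)
  subst h3
  rcases lt_trichotomy j j₀ with h | h | h
  · have h5 := ht.2.2.2 j₀ h hj₀ h1
    exact hPW' (h5 ⟨u, hu, hPW hu⟩)
  · subst h
    exact hnl ht
  · exact hS.not_sub h4 h h1

/-- an exact vertex of `P` exists -/
lemma exists_exact {j₀ : ℕ} (hj₀ : j₀ ≤ n) (hPW : P ⊆ W X N j₀) (hPne : P.Nonempty)
    (hmax : ∀ l, j₀ < l → l ≤ n → P ⊆ W X N l → P = W X N l)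
    (hPW' : ¬ W X N j₀ ⊆ P) (hPc : CC G P)
    (hnl : (j₀, P) ∉ leaves G X N n P) : ∃ x ∈ P, Exact X N n j₀ x := by
  classical
  by_contra hcon
  push Not at hcon
  have hcon' : ∀ x ∈ P, ∃ l, j₀ < l ∧ l ≤ n ∧ x ∈ W X N l := by
    intro x hx
    by_contra h
    push Not at h
    exact hcon x hx ⟨hPW hx, h⟩
  obtain ⟨x0, hx0⟩ := hPne
  have hex : ∃ l, j₀ < l ∧ l ≤ n ∧ (P ∩ W X N l).Nonempty := by
    obtain ⟨l, h1, h2, h3⟩ := hcon' x0 hx0
    exact ⟨l, h1, h2, x0, hx0, h3⟩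
  obtain ⟨hl1, hl2, hl3⟩ := Nat.find_spec hex
  set l₁ := Nat.find hex with hl₁
  have hmin : ∀ l, j₀ < l → l ≤ n → (P ∩ W X N l).Nonempty → l₁ ≤ l := fun l h1 h2 h3 =>
    Nat.find_min' hex ⟨h1, h2, h3⟩
  by_cases hsub : P ⊆ W X N l₁
  · have hP := hmax l₁ hl1 hl2 hsub
    apply hnl
    refine ⟨hj₀, hPW', ?_, ?_⟩
    · refine ⟨⟨x0, hx0⟩, fun x hx => ⟨hx, hPW hx⟩, fun u hu v hv _ => hv.1, hPc⟩
    · intro l h1 h2 h3 h5
      have h6 := hmin l h1 h2 h5
      obtain ⟨y, hy, hy'⟩ := h5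
      rw [hP] at hy
      have := hS.lam' h6 hy hy'
      intro z hz
      simp only
      rw [hP]
      exact this hz
  · obtain ⟨a, ha, b, hb, hab⟩ := hPc (P ∩ W X N l₁) inter_subset_left hl3 (fun h => hsub (by
      rw [← h]; exact inter_subset_right))
    obtain ⟨l, h1, h2, h3⟩ := hcon' b hb.1
    have h5 := hmin l h1 h2 ⟨b, hb.1, h3⟩
    have h6 : b ∉ W X N l₁ := fun h => hb.2 ⟨hb.1, h⟩
    have h7 : l₁ < l := by
      rcases h5.eq_or_lt with h | h
      · rw [← h] at h3; exact absurd h3 h6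
      · exact h
    obtain ⟨i, hi⟩ : ∃ i, l₁ = i + 1 := ⟨l₁ - 1, by omega⟩
    obtain ⟨i', hi'⟩ : ∃ i, l = i + 1 := ⟨l - 1, by omega⟩
    rw [hi] at ha h6
    rw [hi'] at h3
    exact (hS.ring_prot (by omega) hab ha.2 h6).2 h3.1

omit hS in
/-- subset of the boundary of `P` not using leaf edges -/
lemma surplus {D : Set (V × V)} (hS : Sys G X N o) (hfin : (prs G P Pᶜ).Finite)
    (hD : D ⊆ prs G P Pᶜ) (h2 : 2 ≤ D.ncard)
    (hfree : ∀ t ∈ leaves G X N n P, ∀ p ∈ D, p ∉ dl G X N t) :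
    (leaves G X N n P).Finite ∧ 2 * (leaves G X N n P).ncard + 2 ≤ ce G P Pᶜ := by
  have := leaf_bound hS hfin (leaves G X N n P) subset_rfl D hD (fun t ht => by
    rw [Set.disjoint_left]
    intro p hp hp'
    exact hfree t ht p hp' hp)
  exact ⟨this.1, by omega⟩

include h4 in
/-- the case of a leaf at the top -/
lemma top_leaf {j₀ : ℕ} (hPW : P ⊆ W X N j₀) (hPW' : ¬ W X N j₀ ⊆ P) (hPc : CC G P)
    (hPne : P.Nonempty) (hPne' : Pᶜ.Nonempty) (hfin : (prs G P Pᶜ).Finite)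
    (hl : (j₀, P) ∈ leaves G X N n P) :
    (leaves G X N n P).Finite ∧ 2 * (leaves G X N n P).ncard + 2 ≤ ce G P Pᶜ := by
  have h1 : leaves G X N n P ⊆ {(j₀, P)} := by
    rintro ⟨j, K⟩ ht
    have hK := ht.2.2.1
    simp only at hK
    have hKP : P ⊆ W X N j → K = P := by
      intro h2
      rw [inter_eq_left.2 h2] at hK
      refine hK.sub.antisymm ?_
      by_contra hcon
      obtain ⟨a, ha, b, hb, hab⟩ := hPc K hK.sub hK.ne (fun h => hcon (by rw [h]))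
      exact hb.2 (hK.closed a ha b hb.1 hab)
    obtain ⟨x, hx⟩ := hK.ne
    have hx' := hK.sub hx
    rcases lt_trichotomy j j₀ with h | h | h
    · exfalso
      have h5 := hS.lam' h.le hx'.2 (hPW hx'.1)
      have h6 := hKP (hPW.trans h5)
      have h7 := ht.2.2.2 j₀ h hl.1 h5 ⟨x, hx, hPW hx'.1⟩
      simp only at h7
      rw [h6] at h7
      exact hPW' h7
    · subst h
      rw [hKP hPW]
      rfl
    · exfalso
      have h5 := hS.lam' h.le (hPW hx'.1) hx'.2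
      have h7 := hl.2.2.2 j h ht.1 h5 ⟨x, hx'.1, hx'.2⟩
      exact ht.2.1 h7
  have h2 : (leaves G X N n P).Finite := (finite_singleton _).subset h1
  refine ⟨h2, ?_⟩
  have h3 := Set.ncard_le_ncard h1 (finite_singleton _)
  rw [Set.ncard_singleton] at h3
  have h5 := h4 P hPne hPne' hfin
  omega

end Pool.H17.HCC
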