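import Pool.Agent.Helper17.HCC.Bound

/-! # The finite step -/

open Set

namespace Pool.H17.HCC

open Pool.H66.HC

universe u

variable {V : Type u} {G : SimpleGraph V} {X N : ℕ → Set V} {o : V}

open Classical in
/-- the matroid inequality -/
theorem rank_ineq (hS : Sys G X N o) (h4 : Four G) (n : ℕ) (E : Finset (Sym2 V))
    (hE : ∀ u v, s(u, v) ∈ E → G.Adj u v) (A : Finset (Sym2 V)) (hA : A ⊆ E) :
    lrk (evec (psiA G X N n E)) E + lrk (evec (psiB G E)) E ≤
      (E \ A).card + lrk (evec (psiA G X N n E)) A + lrk (evec (psiB G E)) A := by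
  let D : SimpleGraph V := G.deleteEdges ((E \ A : Finset (Sym2 V)) : Set (Sym2 V))
  have hD : ∀ u v, D.Adj u v ↔ G.Adj u v ∧ s(u, v) ∉ E \ A := fun u v => by
    simp only [D, SimpleGraph.deleteEdges_adj, Finset.mem_coe]
  have hDG : D ≤ G := SimpleGraph.deleteEdges_le _
  have hcf := classes_fin hD h4.cc
  set Ps := hcf.toFinset with hPsdef
  have hPs : ∀ P, P ∈ Ps ↔ IsComp D univ P := fun P => hcf.mem_toFinset
  have hB := boundB (G := G) hD o hPs
  -- the closure of `A`
  set A' : Finset (Sym2 V) := E.filter (fun e => ∃ P ∈ Ps, ∀ v ∈ e, v ∈ P) with hA'def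
  have hA'E : A' ⊆ E := Finset.filter_subset _ _
  have hAA' : A ⊆ A' := by
    intro e he
    rw [hA'def, Finset.mem_filter]
    refine ⟨hA he, ?_⟩
    induction e using Sym2.ind with
    | _ u v =>
      have hc := isComp_compOf (D := D) (mem_univ u)
      refine ⟨_, (hPs _).2 hc, ?_⟩
      intro w hw
      rcases Sym2.mem_iff.1 hw with rfl | rfl
      · exact mem_compOf (mem_univ _)
      · refine hc.closed u (mem_compOf (mem_univ _)) _ trivial ((hD _ _).2 ⟨hE _ _ (hA he), ?_⟩)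
        rw [Finset.mem_sdiff]
        exact fun h => h.2 he
  have hAr : lrk (evec (psiA G X N n E)) A' ≤
      lrk (evec (psiA G X N n E)) A + (A' \ A).card := by
    have h1 := (isRank_lrk (evec (psiA G X N n E))).union_le_card A (A' \ A)
    rwa [Finset.union_sdiff_of_subset hAA'] at h1
  have hcards : (E \ A).card = (E \ A').card + (A' \ A).card := by
    rw [← Finset.card_union_of_disjoint]
    · congr 1
      ext e
      rw [Finset.mem_union, Finset.mem_sdiff, Finset.mem_sdiff, Finset.mem_sdiff]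
      have h1 : e ∈ A → e ∈ A' := fun h => hAA' h
      have h2 : e ∈ A' → e ∈ E := fun h => hA'E h
      tauto
    · rw [Finset.disjoint_left]
      intro e he he'
      rw [Finset.mem_sdiff] at he he'
      exact he.2 he'.1
  have hA'same : ∀ P ∈ Ps, ∀ u ∈ P, ∀ v ∈ P, s(u, v) ∈ E → s(u, v) ∈ A' := by
    intro P hP u hu v hv he
    rw [hA'def, Finset.mem_filter]
    refine ⟨he, P, hP, fun w hw => ?_⟩
    rcases Sym2.mem_iff.1 hw with rfl | rfl
    · exact hu
    · exact hv
  have hdis : ∀ P ∈ Ps, ∀ Q ∈ Ps, P ≠ Q → Disjoint P Q := fun P hP Q hQ hne =>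
    ((hPs P).1 hP).disjoint ((hPs Q).1 hQ) hne
  by_cases hPu : ∃ P ∈ Ps, P = univ
  · -- only one class
    obtain ⟨P, hP, rfl⟩ := hPu
    have h1 : A' = E := hA'E.antisymm fun e he => by
      rw [hA'def, Finset.mem_filter]
      exact ⟨he, univ, hP, fun _ _ => trivial⟩
    have h2 : Ps.card ≤ 1 := by
      rw [Finset.card_le_one]
      intro Q hQ R hR
      have key : ∀ Q ∈ Ps, Q = univ := by
        intro Q hQ
        by_contra hne
        obtain ⟨y, hy⟩ := ((hPs Q).1 hQ).ne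
        exact Set.disjoint_left.1 (hdis Q hQ univ hP hne) hy trivial
      rw [key Q hQ, key R hR]
    rw [h1] at hAr hcards
    omega
  push Not at hPu
  -- the leaves
  have hfinP : ∀ P ∈ Ps, (prs G P Pᶜ).Finite := by
    intro P hP
    refine (rmv_fin hD).subset ?_
    rintro ⟨u, v⟩ ⟨hu, hv, huv⟩
    exact ⟨huv, fun h => hv (((hPs P).1 hP).closed u hu v trivial h)⟩
  have hccP : ∀ P ∈ Ps, CC G P := fun P hP A hA hne hneq => by
    obtain ⟨u, hu, v, hv, huv⟩ := ((hPs P).1 hP).cc A hA hne hneq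
    exact ⟨u, hu, v, hv, hDG huv⟩
  have hlf : ∀ P ∈ Ps, (leaves G X N n P).Finite := fun P hP =>
    (leaf_bound hS (hfinP P hP) _ subset_rfl ∅ (empty_subset _) (fun _ _ => disjoint_empty _)).1
  set L : Finset (ℕ × Set V) := Ps.biUnion
    (fun P => if h : P ∈ Ps then (hlf P h).toFinset else ∅) with hLdef
  have hL : ∀ P ∈ Ps, ∀ t ∈ leaves G X N n P, t ∈ L := by
    intro P hP t ht
    rw [hLdef, Finset.mem_biUnion]
    refine ⟨P, hP, ?_⟩
    rw [dif_pos hP, Set.Finite.mem_toFinset]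
    exact ht
  have hL' : ∀ t ∈ L, ∃ P ∈ Ps, t ∈ leaves G X N n P := by
    intro t ht
    rw [hLdef, Finset.mem_biUnion] at ht
    obtain ⟨P, hP, ht⟩ := ht
    rw [dif_pos hP, Set.Finite.mem_toFinset] at ht
    exact ⟨P, hP, ht⟩
  have hA1 := boundA (A' := A') hS h4 (fun x => ⟨_, (hPs _).2 (isComp_compOf (D := D) (mem_univ x)),
    mem_compOf (mem_univ x)⟩) hdis hPu hA'same L hL hL'
  have hLc : L.card ≤ ∑ P ∈ Ps, (leaves G X N n P).ncard := by
    refine Finset.card_biUnion_le.trans (Finset.sum_le_sum fun P hP => ?_)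
    rw [dif_pos hP, ← Set.ncard_eq_toFinset_card _ (hlf P hP)]
  -- counting edges
  let D' : SimpleGraph V := G.deleteEdges ((E \ A' : Finset (Sym2 V)) : Set (Sym2 V))
  have hD' : ∀ u v, D'.Adj u v ↔ G.Adj u v ∧ s(u, v) ∉ E \ A' := fun u v => by
    simp only [D', SimpleGraph.deleteEdges_adj, Finset.mem_coe]
  obtain ⟨hr, hfr⟩ := fr_le_two_mul (G := G) (D := D') (F := E \ A') (by
    intro u v h1 h2
    by_contra h3
    exact h2 ((hD' u v).2 ⟨h1, h3⟩))
  have hce : ∀ P ∈ Ps, ce G P Pᶜ ≤ fr G D' P := by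
    intro P hP
    refine ce_le_fr hr ?_
    intro u hu v hv huv
    obtain ⟨h1, h2⟩ := (hD' u v).1 huv
    have h3 : ¬ D.Adj u v := fun h => hv (((hPs P).1 hP).closed u hu v trivial h)
    have h5 : s(u, v) ∈ E \ A := by
      by_contra h5
      exact h3 ((hD u v).2 ⟨h1, h5⟩)
    rw [Finset.mem_sdiff] at h5 h2
    apply h2
    refine ⟨h5.1, fun h6 => ?_⟩
    rw [hA'def, Finset.mem_filter] at h6
    obtain ⟨-, Q, hQ, hQ'⟩ := h6
    have h7 := hQ' u (Sym2.mem_mk_left u v)
    have h8 := hQ' v (Sym2.mem_mk_right u v)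
    by_cases hPQ : P = Q
    · subst hPQ; exact hv h8
    · exact Set.disjoint_left.1 (hdis P hP Q hQ hPQ) hu h7
  have hsum : ∑ P ∈ Ps, ce G P Pᶜ ≤ 2 * (E \ A').card :=
    (Finset.sum_le_sum hce).trans ((sum_cnt Ps univ (fr_fin hr _) (fun _ _ => subset_univ _)
      hdis).trans hfr)
  obtain ⟨Po, hPo, hoP⟩ : ∃ P ∈ Ps, o ∈ P :=
    ⟨_, (hPs _).2 (isComp_compOf (D := D) (mem_univ o)), mem_compOf (mem_univ o)⟩
  have hone : ∀ P ∈ Ps, 2 * (leaves G X N n P).ncard + (if P = Po then 0 else 2) ≤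
      ce G P Pᶜ := by
    intro P hP
    by_cases hPP : P = Po
    · rw [if_pos hPP]
      have := (leaf_bound hS (hfinP P hP) (leaves G X N n P) subset_rfl ∅ (empty_subset _)
        (fun _ _ => disjoint_empty _)).2
      omega
    · rw [if_neg hPP]
      refine (leaf_count hS h4 n (hccP P hP) ((hPs P).1 hP).ne ?_ (hfinP P hP)).2
      exact fun hoP' => Set.disjoint_left.1 (hdis P hP Po hPo hPP) hoP' hoP
  have hsum2 := Finset.sum_le_sum hone
  rw [Finset.sum_add_distrib, ← Finset.mul_sum] at hsum2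
  have hsum3 : ∑ P ∈ Ps, (if P = Po then 0 else 2) = 2 * (Ps.card - 1) := by
    rw [← Finset.add_sum_erase _ _ hPo, if_pos rfl, zero_add,
      Finset.sum_congr rfl (fun P hP => if_neg (Finset.mem_erase.1 hP).1), Finset.sum_const,
      Finset.card_erase_of_mem hPo, smul_eq_mul, mul_comm]
  have hPc : 0 < Ps.card := Finset.card_pos.2 ⟨Po, hPo⟩
  omega

end Pool.H17.HCC
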