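import Pool.Agent.Helper66.HC.Comp

/-! # Systems of rings in a graph (interface) -/

open Set

namespace Pool.H17.HCC

open Pool.H66.HC

universe u

variable {V : Type u}

/-- two-edge-connectedness of a (possibly infinite) vertex set in terms of finite cuts -/
def TCi (G : SimpleGraph V) (S : Set V) : Prop :=
  ∀ A ⊆ S, A.Nonempty → A ≠ S → (prs G A (S \ A)).Finite → 2 ≤ ce G A (S \ A)

/-- the zone of `x` at stage `n`: the atom containing `x` of the algebra generated by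
`X i`, `N i` with `i < n` -/
def zone (X N : ℕ → Set V) (n : ℕ) (x : V) : Set V :=
  {y | ∀ i < n, (y ∈ X i ↔ x ∈ X i) ∧ (y ∈ N i ↔ x ∈ N i)}

/-- the ring `i` -/
def ring (X N : ℕ → Set V) (i : ℕ) : Set V := X i \ N i

/-- A system of rings `X i \ N i`: at step `i` the zone containing `X i` is cut into
the three zones `Z \ X i`, `X i \ N i` and `N i`. -/
structure Sys (G : SimpleGraph V) (X N : ℕ → Set V) (o : V) : Prop where
  /-- the hub is inside the region -/
  sub : ∀ i, N i ⊆ X i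
  ne : ∀ i, (N i).Nonempty
  /-- the root is never inside a region -/
  root : ∀ i, o ∉ X i
  finX : ∀ i, (prs G (X i) (X i)ᶜ).Finite
  finN : ∀ i, (prs G (N i) (N i)ᶜ).Finite
  /-- the ring separates the hub from the outside -/
  sep : ∀ i, ∀ u ∈ N i, ∀ v, v ∉ X i → ¬ G.Adj u v
  /-- laminarity -/
  nest : ∀ i j, i < j → X j ⊆ N i ∨ X j ⊆ X i \ N i ∨ Disjoint (X j) (X i)
  /-- later regions avoid all ends of the edges between zones -/
  prot : ∀ i j, i < j → ∀ u v, G.Adj u v →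
    ((u ∈ X i ∧ v ∉ X i) ∨ (u ∈ N i ∧ v ∉ N i)) → u ∉ X j ∧ v ∉ X j
  /-- all zones are two-edge-connected -/
  tc : ∀ n x, TCi G (zone X N n x)
  /-- the hub inequality (D) -/
  hub : ∀ i, ∀ Q ⊆ X i \ N i, (prs G (N i ∪ Q) (N i ∪ Q)ᶜ).Finite →
    2 * {K | IsComp G Q K}.ncard + 2 ≤ ce G (N i ∪ Q) (N i ∪ Q)ᶜ

/-- the end `s` lives in `S` -/
def Lives {G : SimpleGraph V} (s : ∀ K : (Finset V)ᵒᵖ, G.ComponentCompl K.unop) (S : Set V) :
    Prop := ∃ K : Finset V, (s (Opposite.op K)).supp ⊆ S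

/-- every end is surrounded by rings -/
def Cof (G : SimpleGraph V) (X N : ℕ → Set V) : Prop :=
  ∀ s ∈ G.end, ∀ K : Finset V, ∃ i, Lives s (N i) ∧ Disjoint (X i) (K : Set V)

/-- the outcome of the finite count and compactness: `H` meets all finite cuts of `G` and of all
rings, and the rest of `G` meets all finite cuts of `G` -/
structure Lim (G H : SimpleGraph V) (X N : ℕ → Set V) : Prop where
  le : H ≤ G
  all : ∀ S : Set V, S.Nonempty → Sᶜ.Nonempty → (prs G S Sᶜ).Finite →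
    ∃ u ∈ S, ∃ v, v ∉ S ∧ H.Adj u v
  rings : ∀ i, ∀ S ⊆ X i \ N i, S.Nonempty → S ≠ X i \ N i →
    (prs G S ((X i \ N i) \ S)).Finite → ∃ u ∈ S, ∃ v ∈ (X i \ N i) \ S, H.Adj u v
  rest : ∀ S : Set V, S.Nonempty → Sᶜ.Nonempty → (prs G S Sᶜ).Finite →
    ∃ u ∈ S, ∃ v, v ∉ S ∧ G.Adj u v ∧ ¬ H.Adj u v

end Pool.H17.HCC
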