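import Pool.Agent.Helper17.HCC.LeafCount
import Pool.Agent.Helper66.HC.Rank

/-! # The two linear matroids of the finite step -/

open Set

namespace Pool.H17.HCC

open Pool.H66.HC

universe u

variable {V : Type u} {G : SimpleGraph V} {X N : ℕ → Set V} {o : V}

section general

lemma span_zero {U : Type*} [AddCommGroup U] [Module ℚ U] (f : U →ₗ[ℚ] ℚ) {ψ : V → V → U}
    (hψ : ∀ u v, ψ u v = - ψ v u) {I : Set (Sym2 V)} (h : ∀ u v, s(u, v) ∈ I → f (ψ u v) = 0)
    {x : U} (hx : x ∈ Submodule.span ℚ (evec ψ '' I)) : f x = 0 := by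
  have : Submodule.span ℚ (evec ψ '' I) ≤ LinearMap.ker f := by
    rw [Submodule.span_le]
    rintro _ ⟨e, he, rfl⟩
    rw [SetLike.mem_coe, LinearMap.mem_ker]
    induction e using Sym2.ind with
    | _ u v =>
      rcases evec_mk hψ u v with h1 | h1
      · rw [h1]; exact h u v he
      · rw [h1, map_neg, h u v he, neg_zero]
  exact this hx

lemma psi_span {U : Type*} [AddCommGroup U] [Module ℚ U] {ψ : V → V → U}
    (hψ : ∀ u v, ψ u v = - ψ v u) {I : Set (Sym2 V)} {u v : V} (h : s(u, v) ∈ I) :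
    ψ u v ∈ Submodule.span ℚ (evec ψ '' I) :=
  (psi_mem hψ).2 (Submodule.subset_span ⟨_, h, rfl⟩)

/-- the functional on a quotient given by a function -/
noncomputable def qf {B : Type*} (g : B → ℚ) (R : Submodule ℚ (B →₀ ℚ))
    (h : R ≤ LinearMap.ker (Finsupp.linearCombination ℚ g)) : ((B →₀ ℚ) ⧸ R) →ₗ[ℚ] ℚ :=
  R.liftQ (Finsupp.linearCombination ℚ g) h

lemma qf_mk {B : Type*} (g : B → ℚ) (R : Submodule ℚ (B →₀ ℚ))
    (h : R ≤ LinearMap.ker (Finsupp.linearCombination ℚ g)) (b : B) :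
    qf g R h (R.mkQ (Finsupp.single b 1)) = g b := by
  unfold qf
  rw [Submodule.mkQ_apply, Submodule.liftQ_apply, Finsupp.linearCombination_single, one_smul]

lemma span_ker {B : Type*} (g : B → ℚ) (T : Set (B × B)) (h : ∀ p ∈ T, g p.1 = g p.2) :
    Submodule.span ℚ ((fun p : B × B => Finsupp.single p.1 (1 : ℚ) - Finsupp.single p.2 1) '' T) ≤
      LinearMap.ker (Finsupp.linearCombination ℚ g) := by
  rw [Submodule.span_le]
  rintro _ ⟨p, hp, rfl⟩
  rw [SetLike.mem_coe, LinearMap.mem_ker, map_sub, Finsupp.linearCombination_single,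
    Finsupp.linearCombination_single, h p hp, sub_self]

/-- the relations -/
noncomputable def rel {B : Type*} (T : Set (B × B)) : Submodule ℚ (B →₀ ℚ) :=
  Submodule.span ℚ ((fun p : B × B => Finsupp.single p.1 (1 : ℚ) - Finsupp.single p.2 1) '' T)

/-- the class of a point -/
noncomputable def pt {B : Type*} (T : Set (B × B)) (b : B) : (B →₀ ℚ) ⧸ rel T :=
  (rel T).mkQ (Finsupp.single b 1)

lemma pt_eq {B : Type*} {T : Set (B × B)} {a b : B} (h : (a, b) ∈ T) : pt T a = pt T b := by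
  unfold pt
  rw [Submodule.mkQ_apply, Submodule.mkQ_apply, Submodule.Quotient.eq]
  exact Submodule.subset_span ⟨(a, b), h, rfl⟩

/-- a function compatible with the relations gives a functional -/
lemma exists_fun {B : Type*} {T : Set (B × B)} (g : B → ℚ) (h : ∀ p ∈ T, g p.1 = g p.2) :
    ∃ f : ((B →₀ ℚ) ⧸ rel T) →ₗ[ℚ] ℚ, ∀ b, f (pt T b) = g b :=
  ⟨qf g (rel T) (span_ker g T h), fun b => qf_mk g (rel T) (span_ker g T h) b⟩

end general

section defs

open Classical in
/-- the smallest universe containing `u` and `v` (up to stage `n`) -/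
noncomputable def lev (X N : ℕ → Set V) (n : ℕ) (u v : V) : ℕ :=
  Nat.findGreatest (fun j => u ∈ W X N j ∧ v ∈ W X N j) n

lemma lev_mem (n : ℕ) (u v : V) : u ∈ W X N (lev X N n u v) ∧ v ∈ W X N (lev X N n u v) := by
  classical
  exact Nat.findGreatest_spec (P := fun j => u ∈ W X N j ∧ v ∈ W X N j) (Nat.zero_le n)
    ⟨mem_univ _, mem_univ _⟩

lemma lev_le (n : ℕ) (u v : V) : lev X N n u v ≤ n := by
  classical
  unfold lev
  exact Nat.findGreatest_le n

lemma le_lev {n : ℕ} {u v : V} {j : ℕ} (hj : j ≤ n) (hu : u ∈ W X N j) (hv : v ∈ W X N j) :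
    j ≤ lev X N n u v := by
  classical
  exact Nat.le_findGreatest hj ⟨hu, hv⟩

lemma lev_comm (n : ℕ) (u v : V) : lev X N n u v = lev X N n v u := by
  unfold lev
  congr 1
  ext j
  exact and_comm

/-- the relations of the first matroid -/
def T1 (G : SimpleGraph V) (X N : ℕ → Set V) (n : ℕ) (E : Finset (Sym2 V)) :
    Set ((ℕ × V) × (ℕ × V)) :=
  {p | p.1.1 = p.2.1 ∧ ((∃ l, p.1.1 < l ∧ l ≤ n ∧ W X N l ⊆ W X N p.1.1 ∧ p.1.2 ∈ W X N l ∧
    p.2.2 ∈ W X N l) ∨ (G.Adj p.1.2 p.2.2 ∧ s(p.1.2, p.2.2) ∉ E ∧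
      lev X N n p.1.2 p.2.2 = p.1.1))}

/-- the relations of the second matroid -/
def T2 (G : SimpleGraph V) (E : Finset (Sym2 V)) : Set (V × V) :=
  {p | G.Adj p.1 p.2 ∧ s(p.1, p.2) ∉ E}

/-- the vectors of the first matroid -/
noncomputable def psiA (G : SimpleGraph V) (X N : ℕ → Set V) (n : ℕ) (E : Finset (Sym2 V))
    (u v : V) : ((ℕ × V) →₀ ℚ) ⧸ rel (T1 G X N n E) :=
  pt (T1 G X N n E) (lev X N n u v, u) - pt (T1 G X N n E) (lev X N n u v, v)

/-- the vectors of the second matroid -/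
noncomputable def psiB (G : SimpleGraph V) (E : Finset (Sym2 V)) (u v : V) :
    (V →₀ ℚ) ⧸ rel (T2 G E) :=
  pt (T2 G E) u - pt (T2 G E) v

lemma psiA_anti (n : ℕ) (E : Finset (Sym2 V)) (u v : V) :
    psiA G X N n E u v = - psiA G X N n E v u := by
  unfold psiA
  rw [lev_comm n v u, neg_sub]

lemma psiB_anti (E : Finset (Sym2 V)) (u v : V) : psiB G E u v = - psiB G E v u := by
  unfold psiB
  rw [neg_sub]

end defs

end Pool.H17.HCC
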